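import Pool.Agent.H28.Glue.Defs

/-!
# Gluing at a vertex or along an edge, and atoms: the definitions
-/

set_option autoImplicit false

namespace Pool.Glue28

open Finset SimpleGraph

/-- `G` is the union of a copy of `X` and a copy of `Y` which have in common exactly one vertex, or
exactly two vertices which are adjacent in both copies. -/
def IsGluing (X Y G : BipGraph) : Prop :=
  ∃ (f : X.V → G.V) (g : Y.V → G.V), Function.Injective f ∧ Function.Injective g ∧
    (∀ a, (∃ x, f x = a) ∨ ∃ y, g y = a) ∧
    (∀ a b, G.graph.Adj a b ↔ (∃ x y, X.graph.Adj x y ∧ f x = a ∧ f y = b) ∨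
      ∃ x y, Y.graph.Adj x y ∧ g x = a ∧ g y = b) ∧
    ((∃ u v, ∀ x y, f x = g y ↔ x = u ∧ y = v) ∨
      ∃ u u' v v', X.graph.Adj u u' ∧ Y.graph.Adj v v' ∧
        ∀ x y, f x = g y ↔ (x = u ∧ y = v) ∨ (x = u' ∧ y = v'))

/-- The subgraph induced on `T` is connected, and it remains connected when a clique is deleted. -/
def Whole (X : BipGraph) (T : Set X.V) : Prop :=
  (X.graph.induce T).Connected ∧
    ∀ K ⊆ T, X.graph.IsClique K → (X.graph.induce (T \ K)).Preconnected

/-- `Y` is an atom of `X`: it is isomorphic to the subgraph induced on a maximal set with the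
property `Whole`. -/
def IsAtomOf (Y X : BipGraph) : Prop :=
  ∃ S : Set X.V, Maximal (Whole X) S ∧ Nonempty (Y.graph ≃g X.graph.induce S)

end Pool.Glue28
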