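import Pool.Agent.H28.Glue.Final

/-!
# Reduction to the blocks
-/

set_option autoImplicit false

namespace Pool.Glue28

open Finset SimpleGraph BipGraph

section

variable (X : BipGraph) {w : X.V}

/-- an induced subgraph -/
@[reducible] noncomputable def sub (S : Set X.V) (hS : (X.graph.induce S).Connected)
    (h2 : ∃ a ∈ S, ∃ b ∈ S, a ≠ b) : BipGraph where
  V := S
  fin := Fintype.ofFinite S
  dec := inferInstanceAs (DecidableEq {x // x ∈ S})
  graph := X.graph.induce S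
  conn := hS
  two := by
    obtain ⟨a, ha, b, hb, hab⟩ := h2
    let _ := Fintype.ofFinite S
    exact Fintype.one_lt_card_iff.2 ⟨⟨a, ha⟩, ⟨b, hb⟩, fun h => hab (congrArg Subtype.val h)⟩
  col x := X.col x.1
  proper x y h := X.proper x.1 y.1 h

theorem sub_order_lt {S : Set X.V} (hS : (X.graph.induce S).Connected)
    (h2 : ∃ a ∈ S, ∃ b ∈ S, a ≠ b) (h : ∃ b, b ∉ S) : (sub X S hS h2).order < X.order := by
  classical
  obtain ⟨b, hb⟩ := h
  let _ := Fintype.ofFinite S
  change Fintype.card S < Fintype.card X.V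
  exact Fintype.card_lt_of_injective_of_notMem (Subtype.val : S → X.V) Subtype.val_injective
    (b := b) fun ⟨x, hx⟩ => hb (hx ▸ x.2)

/-- the subgraph induced on the image of a set -/
noncomputable def imageIso {S : Set X.V} (T : Set S) :
    (X.graph.induce S).induce T ≃g X.graph.induce (Subtype.val '' T) where
  toEquiv := Equiv.Set.image Subtype.val T Subtype.val_injective
  map_rel_iff' := Iff.rfl

theorem two_image {S : Set X.V} {hS : (X.graph.induce S).Connected}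
    {h2 : ∃ a ∈ S, ∃ b ∈ S, a ≠ b} {T : Set S} :
    Two (sub X S hS h2) T ↔ Two X (Subtype.val '' T) := by
  have h1 : ∀ w : S, (((sub X S hS h2).graph.induce (T \ {w})).Preconnected ↔
      (X.graph.induce ((Subtype.val '' T) \ {w.1})).Preconnected) := by
    intro w
    have h : ((Subtype.val '' T) \ {w.1} : Set X.V) = Subtype.val '' (T \ {w}) := by
      rw [Set.image_sdiff Subtype.val_injective, Set.image_singleton]
    rw [h]
    exact (imageIso X (T \ {w})).preconnected_iff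
  have h0 : ((sub X S hS h2).graph.induce T).Connected ↔
      (X.graph.induce (Subtype.val '' T)).Connected := (imageIso X T).connected_iff
  constructor
  · rintro ⟨h3, h4⟩
    refine ⟨h0.1 h3, ?_⟩
    rintro _ ⟨w, hw, rfl⟩
    exact (h1 w).1 (h4 w hw)
  · rintro ⟨h3, h4⟩
    exact ⟨h0.2 h3, fun w hw => (h1 w).2 (h4 w.1 ⟨w, hw, rfl⟩)⟩

/-- the blocks of one part are blocks of the whole graph -/
theorem block_of_sub {S : Set X.V} {hS : (X.graph.induce S).Connected}
    {h2 : ∃ a ∈ S, ∃ b ∈ S, a ≠ b}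
    (hw : ∀ T : Set X.V, Two X T → (∃ x ∈ T, x ∈ S ∧ x ≠ w) → T ⊆ S) {Z : BipGraph}
    (hZ : IsBlockOf Z (sub X S hS h2)) : IsBlockOf Z X := by
  obtain ⟨T, hT, ⟨e⟩⟩ := hZ
  refine ⟨Subtype.val '' T, ⟨two_image X |>.1 hT.1, ?_⟩, ⟨e.trans (imageIso X T)⟩⟩
  intro T' hT' hTT'
  -- a vertex of `T` different from `w`
  have hx : ∃ x ∈ T', x ∈ S ∧ x ≠ w := by
    obtain ⟨a, b, hab⟩ := Fintype.one_lt_card_iff.1 Z.two
    have h3 : ((e a).1 : S).1 ≠ ((e b).1 : S).1 := fun h =>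
      hab (e.injective (Subtype.ext (Subtype.ext h)))
    by_cases ha : ((e a).1 : S).1 = w
    · exact ⟨((e b).1 : S).1, hTT' ⟨_, (e b).2, rfl⟩, (e b).1.2, fun hb => h3 (ha.trans hb.symm)⟩
    · exact ⟨((e a).1 : S).1, hTT' ⟨_, (e a).2, rfl⟩, (e a).1.2, ha⟩
  have hsub := hw T' hT' hx
  have himg : T' = Subtype.val '' (Subtype.val ⁻¹' T' : Set S) := by
    rw [Subtype.image_preimage_coe, Set.inter_eq_right.2 hsub]
  have h4 : Two (sub X S hS h2) (Subtype.val ⁻¹' T' : Set S) := by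
    rw [two_image, ← himg]
    exact hT'
  have h5 : T ≤ (Subtype.val ⁻¹' T' : Set S) := fun x hx => hTT' ⟨x, hx, rfl⟩
  have h6 := hT.2 h4 h5
  intro x hx
  exact ⟨⟨x, hsub hx⟩, h6 hx, rfl⟩

theorem exists_split (hX : ¬ Two X Set.univ) : ∃ (Y Z : BipGraph) (u : Y.V) (v : Z.V),
    Y.order < X.order ∧ Z.order < X.order ∧ (∀ T, IsBlockOf T Y → IsBlockOf T X) ∧
      (∀ T, IsBlockOf T Z → IsBlockOf T X) ∧
      (Y.glue Z u v).graph ⊑ X.graph ∧ X.graph ⊑ (Y.glue Z u v).graph := by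
  classical
  have huniv : (X.graph.induce Set.univ).Connected := (induceUnivIso X.graph).connected_iff.2 X.conn
  have hX : ∃ w, ¬ (X.graph.induce (Set.univ \ {w})).Preconnected := by
    by_contra hno
    push Not at hno
    exact hX ⟨huniv, fun w _ => hno w⟩
  obtain ⟨w, hw⟩ := hX
  rw [SimpleGraph.Preconnected] at hw
  push Not at hw
  obtain ⟨⟨a, ha'⟩, ⟨b, hb'⟩, hab⟩ := hw
  have ha : a ≠ w := ha'.2
  have hb : b ≠ w := hb'.2
  let G := X.graph.induce (Set.univ \ {w})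
  let C : Set X.V := {x | ∃ h : x ∈ (Set.univ \ {w} : Set X.V), G.Reachable ⟨a, ha'⟩ ⟨x, h⟩}
  have hwC : w ∉ C := fun h => h.1.2 rfl
  have haC : a ∈ C := ⟨ha', Reachable.refl _⟩
  have hbC : b ∉ C := fun h => hab h.2
  have hcl : ∀ {x y}, x ∈ C → X.graph.Adj x y → y ≠ w → y ∈ C := by
    rintro x y ⟨hx, hr⟩ hxy hy
    refine ⟨⟨Set.mem_univ _, hy⟩, hr.trans ?_⟩
    have : G.Adj ⟨x, hx⟩ ⟨y, ⟨Set.mem_univ _, hy⟩⟩ := hxy
    exact this.reachable
  -- a set which remains connected without `w` is on one side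
  have hside : ∀ T : Set X.V, Two X T → ∀ x ∈ T, ∀ y ∈ T, x ≠ w → y ≠ w → x ∈ C → y ∈ C := by
    intro T hT x hx y hy hxw hyw hxC
    have hpre : (X.graph.induce (T \ {w})).Preconnected := by
      by_cases hwT : w ∈ T
      · exact hT.2 w hwT
      · rw [Set.sdiff_singleton_eq_self hwT]
        exact hT.1.preconnected
    obtain ⟨hx', hr⟩ := hxC
    refine ⟨⟨Set.mem_univ _, hyw⟩, hr.trans ?_⟩
    exact (hpre ⟨x, hx, hxw⟩ ⟨y, hy, hyw⟩).map
      (⟨fun z => ⟨z.1, Set.mem_univ _, z.2.2⟩, fun h => h⟩ :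
        X.graph.induce (T \ {w}) →g X.graph.induce (Set.univ \ {w}))
  let S₁ : Set X.V := {x | x ∈ C ∨ x = w}
  let S₂ : Set X.V := {x | x ∉ C}
  have hw₁ : w ∈ S₁ := Or.inr rfl
  have hw₂ : w ∈ S₂ := hwC
  have key : ∀ (x w' : X.V) (p : X.graph.Walk x w') (hw' : w' = w),
      (∀ h : x ∈ S₁, (X.graph.induce S₁).Reachable ⟨x, h⟩ ⟨w, hw₁⟩) ∧
        ∀ h : x ∈ S₂, (X.graph.induce S₂).Reachable ⟨x, h⟩ ⟨w, hw₂⟩ := by
    intro x w' p
    induction p with
    | nil =>
      intro hw'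
      subst hw'
      exact ⟨fun h => Reachable.refl _, fun h => Reachable.refl _⟩
    | @cons x y w' hadj p ih =>
      intro hw'
      obtain ⟨h1, h2⟩ := ih hw'
      by_cases hx : x = w
      · subst hx
        exact ⟨fun h => Reachable.refl _, fun h => Reachable.refl _⟩
      · constructor
        · intro h
          have hxC : x ∈ C := h.resolve_right hx
          have hy : y ∈ S₁ := by
            by_cases hyw : y = w
            · exact Or.inr hyw
            · exact Or.inl (hcl hxC hadj hyw)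
          have : (X.graph.induce S₁).Adj ⟨x, h⟩ ⟨y, hy⟩ := hadj
          exact this.reachable.trans (h1 hy)
        · intro h
          have hy : y ∈ S₂ := fun hyC => h (hcl hyC hadj.symm hx)
          have : (X.graph.induce S₂).Adj ⟨x, h⟩ ⟨y, hy⟩ := hadj
          exact this.reachable.trans (h2 hy)
  have key' : ∀ x : X.V, (∀ h : x ∈ S₁, (X.graph.induce S₁).Reachable ⟨x, h⟩ ⟨w, hw₁⟩) ∧
        ∀ h : x ∈ S₂, (X.graph.induce S₂).Reachable ⟨x, h⟩ ⟨w, hw₂⟩ := by
    intro x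
    obtain ⟨p⟩ := X.conn.preconnected x w
    exact key x w p rfl
  have c₁ : (X.graph.induce S₁).Connected := by
    have : Nonempty S₁ := ⟨⟨w, hw₁⟩⟩
    exact ⟨fun x y => ((key' x.1).1 x.2).trans ((key' y.1).1 y.2).symm⟩
  have c₂ : (X.graph.induce S₂).Connected := by
    have : Nonempty S₂ := ⟨⟨w, hw₂⟩⟩
    exact ⟨fun x y => ((key' x.1).2 x.2).trans ((key' y.1).2 y.2).symm⟩
  have t₁ : ∃ a ∈ S₁, ∃ b ∈ S₁, a ≠ b := ⟨a, Or.inl haC, w, hw₁, ha⟩
  have t₂ : ∃ a ∈ S₂, ∃ b ∈ S₂, a ≠ b := ⟨b, hbC, w, hw₂, hb⟩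
  refine ⟨sub X S₁ c₁ t₁, sub X S₂ c₂ t₂, ⟨w, hw₁⟩, ⟨w, hw₂⟩,
    sub_order_lt X c₁ t₁ ⟨b, ?_⟩, sub_order_lt X c₂ t₂ ⟨a, fun h => h haC⟩,
    fun T hT => block_of_sub X (w := w) ?_ hT, fun T hT => block_of_sub X (w := w) ?_ hT, ?_, ?_⟩
  · rintro (h | h)
    · exact hbC h
    · exact hb h
  · rintro T hT ⟨x, hx, hxS, hxw⟩ y hy
    by_cases hyw : y = w
    · exact Or.inr hyw
    · exact Or.inl (hside T hT x hx y hy hxw hyw (hxS.resolve_right hxw))
  · rintro T hT ⟨x, hx, hxS, hxw⟩ y hy hyC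
    have hyw : y ≠ w := fun h => hwC (h ▸ hyC)
    exact hxS (hside T hT y hy x hx hyw hxw hyC)
  · -- the glued graph is contained in X
    let F : ((sub X S₁ c₁ t₁).glue (sub X S₂ c₂ t₂) ⟨w, hw₁⟩ ⟨w, hw₂⟩).V → X.V :=
      Sum.elim (fun x => x.1) fun x => x.1.1
    have hF2 : ∀ y : (sub X S₂ c₂ t₂).V,
        F (second (⟨w, hw₁⟩ : (sub X S₁ c₁ t₁).V) (⟨w, hw₂⟩ : (sub X S₂ c₂ t₂).V) y) = y.1 := by
      intro y
      by_cases hy : y = ⟨w, hw₂⟩
      · rw [hy, second_v]; rfl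
      · rw [second_ne _ hy]; rfl
    refine ⟨⟨⟨F, ?_⟩, ?_⟩⟩
    · intro p q h
      rcases glue_cases h with ⟨x, y, hxy, rfl, rfl⟩ | ⟨x, y, hxy, rfl, rfl⟩
      · exact hxy
      · rw [hF2, hF2]; exact hxy
    · have hne : ∀ (x : S₁) (y : {y : (sub X S₂ c₂ t₂).V // y ≠ ⟨w, hw₂⟩}), x.1 ≠ y.1.1 := by
        intro x y h
        rcases x.2 with h1 | h1
        · rw [h] at h1; exact y.1.2 h1
        · exact y.2 (Subtype.ext (h.symm.trans h1))
      rintro (p | p) (q | q) h
      · exact congrArg Sum.inl (Subtype.ext h)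
      · exact absurd h (hne p q)
      · exact absurd h.symm (hne q p)
      · exact congrArg Sum.inr (Subtype.ext (Subtype.ext h))
  · -- X is contained in the glued graph
    let F : X.V → ((sub X S₁ c₁ t₁).glue (sub X S₂ c₂ t₂) ⟨w, hw₁⟩ ⟨w, hw₂⟩).V := fun x =>
      if h : x ∈ S₁ then Sum.inl ⟨x, h⟩
      else second (⟨w, hw₁⟩ : (sub X S₁ c₁ t₁).V) (⟨w, hw₂⟩ : (sub X S₂ c₂ t₂).V)
        ⟨x, fun hC => h (Or.inl hC)⟩
    have hF1 : ∀ (x) (h : x ∈ S₁), F x = Sum.inl ⟨x, h⟩ := fun x h => dif_pos h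
    have hF2 : ∀ (x) (h : x ∈ S₂), F x =
        second (⟨w, hw₁⟩ : (sub X S₁ c₁ t₁).V) (⟨w, hw₂⟩ : (sub X S₂ c₂ t₂).V) ⟨x, h⟩ := by
      intro x h
      by_cases hx : x = w
      · subst hx
        rw [hF1 x hw₁]
        exact (second_v _ _).symm
      · exact dif_neg fun h' => h'.elim h hx
    refine ⟨⟨⟨F, ?_⟩, ?_⟩⟩
    · intro x y hxy
      have hcase : (x ∈ S₁ ∧ y ∈ S₁) ∨ (x ∈ S₂ ∧ y ∈ S₂) := by
        by_cases hx : x ∈ C
        · left
          refine ⟨Or.inl hx, ?_⟩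
          by_cases hyw : y = w
          · exact Or.inr hyw
          · exact Or.inl (hcl hx hxy hyw)
        · by_cases hy : y ∈ C
          · left
            refine ⟨?_, Or.inl hy⟩
            by_cases hxw : x = w
            · exact Or.inr hxw
            · exact absurd (hcl hy hxy.symm hxw) hx
          · exact Or.inr ⟨hx, hy⟩
      rcases hcase with ⟨hx, hy⟩ | ⟨hx, hy⟩
      · rw [hF1 x hx, hF1 y hy]
        exact glue_inl (show (X.graph.induce S₁).Adj ⟨x, hx⟩ ⟨y, hy⟩ from hxy)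
      · rw [hF2 x hx, hF2 y hy]
        exact glue_second (show (X.graph.induce S₂).Adj ⟨x, hx⟩ ⟨y, hy⟩ from hxy)
    · intro x y h
      have h : F x = F y := h
      by_cases hx : x ∈ S₁ <;> by_cases hy : y ∈ S₁
      · rw [hF1 x hx, hF1 y hy] at h
        exact congrArg Subtype.val (Sum.inl_injective h)
      · have hy2 : y ∈ S₂ := fun hC => hy (Or.inl hC)
        have hyw : (⟨y, hy2⟩ : (sub X S₂ c₂ t₂).V) ≠ ⟨w, hw₂⟩ := fun he =>
          hy (Or.inr (congrArg Subtype.val he))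
        rw [hF1 x hx, hF2 y hy2, second_ne _ hyw] at h
        cases h
      · have hx2 : x ∈ S₂ := fun hC => hx (Or.inl hC)
        have hxw : (⟨x, hx2⟩ : (sub X S₂ c₂ t₂).V) ≠ ⟨w, hw₂⟩ := fun he =>
          hx (Or.inr (congrArg Subtype.val he))
        rw [hF1 y hy, hF2 x hx2, second_ne _ hxw] at h
        cases h
      · have hx2 : x ∈ S₂ := fun hC => hx (Or.inl hC)
        have hy2 : y ∈ S₂ := fun hC => hy (Or.inl hC)
        rw [hF2 x hx2, hF2 y hy2] at h
        exact congrArg Subtype.val (second_injective _ _ h)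

end

theorem block_self {X : BipGraph} (h : Two X Set.univ) : IsBlockOf X X :=
  ⟨Set.univ, ⟨h, fun _ _ _ => Set.subset_univ _⟩, ⟨(induceUnivIso X.graph).symm⟩⟩

/-- **Reduction to the blocks.** -/
theorem goodP_of_blocks : ∀ (k : ℕ) (X : BipGraph), X.order = k →
    (∀ Y : BipGraph, IsBlockOf Y X → 3 ≤ Y.order → GoodP Y) → GoodP X := by
  intro k
  induction k using Nat.strong_induction_on with
  | _ k ih =>
    intro X hk hX
    by_cases h2 : X.order = 2
    · exact goodP_two h2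
    · have h3 : 3 ≤ X.order := by
        have := X.two
        have : X.order = Fintype.card X.V := rfl
        omega
      by_cases hc : Two X Set.univ
      · exact hX X (block_self hc) h3
      · obtain ⟨Y, Z, u, v, hY, hZ, hYX, hZX, hG, hG'⟩ := exists_split X hc
        have h1 := ih _ (by omega) Y rfl fun T hT h3 => hX T (hYX T hT) h3
        have h2 := ih _ (by omega) Z rfl fun T hT h3 => hX T (hZX T hT) h3
        obtain ⟨D, hD⟩ := goodP_glue h1 (Or.inl h2) u v
        refine ⟨D, fun n hn => ?_⟩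
        exact (z_mono hG' n).trans ((hD n hn).trans
          (Nat.mul_le_mul_left _ (Nat.add_le_add_right (ex_mono hG n) _)))

/-- an automorphism which exchanges the sides -/
theorem good_of_swap {X : BipGraph} (σ : X.graph ≃g X.graph) (hσ : ∀ x, X.col (σ x) ≠ X.col x) :
    Good X := by
  refine ⟨6, fun n hn => ?_⟩
  refine le_trans ?_ (ex_double X.graph hn)
  refine zar_le ⟨_, empty_free X.edge X.proper n⟩ fun Z hZ => ?_
  have hfree : X.graph.Free (bip Z) := by
    rintro ⟨F⟩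
    have hs : ∀ x y, X.graph.Adj x y → (F x).isLeft ≠ (F y).isLeft := fun x y h =>
      bip_side (F.toHom.map_adj h)
    obtain ⟨w⟩ := X.conn.nonempty
    by_cases hw : (F w).isLeft = X.col w
    · exact hZ (hasCopy_of F F.injective (fun x y h => F.toHom.map_adj h)
        (col_eq X.conn X.proper hs hw))
    · have hw' : (F w).isLeft = !X.col w := by
        revert hw
        cases (F w).isLeft <;> cases X.col w <;> simp
      have h1 := col_eq X.conn X.not_proper hs hw'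
      refine hZ (hasCopy_of (fun x => F (σ x)) (F.injective.comp σ.injective)
        (fun x y h => F.toHom.map_adj (σ.map_adj_iff.2 h)) fun x => ?_)
      rw [h1 (σ x)]
      have := hσ x
      revert this
      cases X.col (σ x) <;> cases X.col x <;> simp
  classical
  have h := card_edgeFinset_le_extremalNumber hfree
  rw [bip_card, Fintype.card_sum, Fintype.card_fin, ← two_mul] at h
  exact h

theorem q1_of_blocks (X : BipGraph) (h3 : 3 ≤ X.order)
    (hX : ∀ Y : BipGraph, IsBlockOf Y X → 3 ≤ Y.order →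
      (∃ a b : Y.V, Y.col a ≠ Y.col b ∧ SameOrder (Y.glue Y a b).ex Y.ex) ∨
        ∃ σ : Y.graph ≃g Y.graph, ∀ x, Y.col (σ x) ≠ Y.col x) : Q1 X := by
  have h := (goodP_of_blocks _ X rfl fun Y hY hY3 => ?_).good h3
  · exact fun u v _ => q1_of_good h3 h u v
  · rcases hX Y hY hY3 with ⟨a, b, hab, h⟩ | ⟨σ, hσ⟩
    · exact (good_of_pair hab h).goodP
    · exact (good_of_swap σ hσ).goodP

end Pool.Glue28
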