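import Pool.Agent.H28.Glue.Union
import Pool.Agent.H28.Glue.Block
import Pool.Agent.H28.Glue.AtomDefs

/-!
# Reduction to the atoms
-/

set_option autoImplicit false

namespace Pool.Glue28

open Finset SimpleGraph BipGraph

theorem IsGluing.z_le {X Y G : BipGraph} (h : IsGluing X Y G) (n : ℕ) :
    G.z n ≤ Y.K * (X.z n + Y.z n + n) := by
  obtain ⟨f, g, hf, hg, hcov, hadj, hroot⟩ := h
  have hfh : ∀ x y, X.graph.Adj x y → G.graph.Adj (f x) (f y) := fun x y h =>
    (hadj _ _).2 (Or.inl ⟨x, y, h, rfl, rfl⟩)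
  have hgh : ∀ x y, Y.graph.Adj x y → G.graph.Adj (g x) (g y) := fun x y h =>
    (hadj _ _).2 (Or.inr ⟨x, y, h, rfl, rfl⟩)
  have hK : n * Fintype.card Y.V + 2 ^ (Fintype.card Y.V + 2) * (X.z n + Y.z n) ≤
      Y.K * (X.z n + Y.z n + n) := by
    rw [K, order]
    calc n * Fintype.card Y.V + 2 ^ (Fintype.card Y.V + 2) * (X.z n + Y.z n)
        ≤ n * Fintype.card Y.V + 2 ^ (Fintype.card Y.V + 2) * (X.z n + Y.z n) +
          (Fintype.card Y.V * (X.z n + Y.z n) + 2 ^ (Fintype.card Y.V + 2) * n) :=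
          Nat.le_add_right _ _
      _ = (Fintype.card Y.V + 2 ^ (Fintype.card Y.V + 2)) * (X.z n + Y.z n + n) := by ring
  refine le_trans ?_ hK
  rcases hroot with ⟨u, v, hroot⟩ | ⟨u, u', v, v', hU, hV, hroot⟩
  · obtain ⟨c, hc, hcu⟩ := G.exists_col (f u) true
    rw [← G.z_col hc n]
    refine zar_le ⟨_, empty_free G.edge hc n⟩ fun Z hZ => ?_
    have h := union_vertex hf hg hcov (fun a b h => (hadj a b).1 h)
      (fun x y h => hc _ _ (hfh x y h)) (fun x y h => hc _ _ (hgh x y h)) X.nb Y.nb hroot hcu hZ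
    rwa [X.z_col (fun x y h => hc _ _ (hfh x y h)), Y.z_col (fun x y h => hc _ _ (hgh x y h))] at h
  · obtain ⟨c, hc, hcu⟩ := G.exists_col (f u) true
    rw [← G.z_col hc n]
    refine zar_le ⟨_, empty_free G.edge hc n⟩ fun Z hZ => ?_
    have h := union_edge hf hg hcov (fun a b h => (hadj a b).1 h)
      (fun x y h => hc _ _ (hfh x y h)) X.nb hU hV hroot hcu hZ
    rwa [X.z_col (fun x y h => hc _ _ (hfh x y h)), Y.z_col (fun x y h => hc _ _ (hgh x y h))] at h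

theorem IsGluing.left {X Y G : BipGraph} (h : IsGluing X Y G) : X.graph ⊑ G.graph := by
  obtain ⟨f, g, hf, hg, hcov, hadj, hroot⟩ := h
  exact ⟨⟨⟨f, fun h => (hadj _ _).2 (Or.inl ⟨_, _, h, rfl, rfl⟩)⟩, hf⟩⟩

theorem IsGluing.right {X Y G : BipGraph} (h : IsGluing X Y G) : Y.graph ⊑ G.graph := by
  obtain ⟨f, g, hf, hg, hcov, hadj, hroot⟩ := h
  exact ⟨⟨⟨g, fun h => (hadj _ _).2 (Or.inr ⟨_, _, h, rfl, rfl⟩)⟩, hg⟩⟩

theorem IsGluing.goodP {X Y G : BipGraph} (h : IsGluing X Y G) (hX : GoodP X)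
    (hY : GoodP Y ∨ Y.graph ⊑ X.graph) : GoodP G := by
  obtain ⟨C, hC⟩ := z_bound hX hY
  refine ⟨Y.K * (2 * C + 1), fun n hn => ?_⟩
  have h1 := ex_mono h.left n
  have h2 := ex_mono h.right n
  calc G.z n ≤ Y.K * (X.z n + Y.z n + n) := h.z_le n
    _ ≤ Y.K * (C * (X.ex n + Y.ex n + n) + n) :=
      Nat.mul_le_mul_left _ (Nat.add_le_add_right (hC n hn) _)
    _ ≤ Y.K * (C * (G.ex n + G.ex n + n) + n) :=
      Nat.mul_le_mul_left _ (Nat.add_le_add_right (Nat.mul_le_mul_left _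
        (Nat.add_le_add_right (Nat.add_le_add h1 h2) _)) _)
    _ ≤ Y.K * (C * (G.ex n + G.ex n + n) + n) + Y.K * (C * n + G.ex n) := Nat.le_add_right _ _
    _ = Y.K * (2 * C + 1) * (G.ex n + n) := by ring

theorem IsGluing.same_sum {X Y G : BipGraph} (h : IsGluing X Y G) (h3 : 3 ≤ X.order)
    (hX : GoodP X) (hY : GoodP Y ∨ Y.graph ⊑ X.graph) :
    SameOrder G.ex fun n => X.ex n + Y.ex n := by
  obtain ⟨C, hC⟩ := z_bound hX hY
  refine ⟨2 * Y.K * (7 * C + 6) + 2, fun n hn => ⟨?_, ?_⟩⟩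
  · have h1 := X.n_le_ex h3 hn
    calc G.ex n ≤ 2 * G.z n := ex_le_z _ n
      _ ≤ 2 * (Y.K * (X.z n + Y.z n + n)) := Nat.mul_le_mul_left _ (h.z_le n)
      _ ≤ 2 * (Y.K * (C * (X.ex n + Y.ex n + n) + n)) :=
        Nat.mul_le_mul_left _ (Nat.mul_le_mul_left _ (Nat.add_le_add_right (hC n hn) _))
      _ ≤ 2 * (Y.K * (C * (X.ex n + Y.ex n + 6 * (X.ex n + Y.ex n)) + 6 * (X.ex n + Y.ex n))) :=
        Nat.mul_le_mul_left _ (Nat.mul_le_mul_left _
          (Nat.add_le_add (Nat.mul_le_mul_left _ (by omega)) (by omega)))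
      _ = 2 * Y.K * (7 * C + 6) * (X.ex n + Y.ex n) := by ring
      _ ≤ (2 * Y.K * (7 * C + 6) + 2) * (X.ex n + Y.ex n) :=
        Nat.mul_le_mul_right _ (Nat.le_add_right _ _)
  · calc X.ex n + Y.ex n ≤ G.ex n + G.ex n :=
        Nat.add_le_add (ex_mono h.left n) (ex_mono h.right n)
      _ = 2 * G.ex n := by ring
      _ ≤ (2 * Y.K * (7 * C + 6) + 2) * G.ex n := Nat.mul_le_mul_right _ (Nat.le_add_left _ _)

section

variable (X : BipGraph)

theorem no_triangle {a b c : X.V} (h1 : X.graph.Adj a b) (h2 : X.graph.Adj a c)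
    (h3 : X.graph.Adj b c) : False := by
  have e1 := X.proper a b h1
  have e2 := X.proper a c h2
  have e3 := X.proper b c h3
  revert e1 e2 e3
  cases X.col a <;> cases X.col b <;> cases X.col c <;> simp

theorem whole_image {S : Set X.V} {hS : (X.graph.induce S).Connected}
    {h2 : ∃ a ∈ S, ∃ b ∈ S, a ≠ b} {T : Set S} :
    Whole (sub X S hS h2) T ↔ Whole X (Subtype.val '' T) := by
  have h1 : ∀ K : Set S, (((sub X S hS h2).graph.induce (T \ K)).Preconnected ↔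
      (X.graph.induce ((Subtype.val '' T) \ (Subtype.val '' K))).Preconnected) := by
    intro K
    have h : ((Subtype.val '' T) \ (Subtype.val '' K) : Set X.V) = Subtype.val '' (T \ K) := by
      rw [Set.image_sdiff Subtype.val_injective]
    rw [h]
    exact (imageIso X (T \ K)).preconnected_iff
  have h0 : ((sub X S hS h2).graph.induce T).Connected ↔
      (X.graph.induce (Subtype.val '' T)).Connected := (imageIso X T).connected_iff
  have hcl : ∀ K : Set S, (sub X S hS h2).graph.IsClique K ↔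
      X.graph.IsClique (Subtype.val '' K) := by
    intro K
    constructor
    · rintro h _ ⟨a, ha, rfl⟩ _ ⟨b, hb, rfl⟩ hab
      exact h ha hb fun h' => hab (congrArg Subtype.val h')
    · intro h a ha b hb hab
      exact h ⟨a, ha, rfl⟩ ⟨b, hb, rfl⟩ fun h' => hab (Subtype.ext h')
  constructor
  · rintro ⟨h3, h4⟩
    refine ⟨h0.1 h3, ?_⟩
    intro K hK hKc
    have hKS : K ⊆ S := hK.trans (by rintro _ ⟨x, _, rfl⟩; exact x.2)
    have hKi : K = Subtype.val '' (Subtype.val ⁻¹' K : Set S) := by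
      rw [Subtype.image_preimage_coe, Set.inter_eq_right.2 hKS]
    rw [hKi]
    refine (h1 _).1 (h4 _ ?_ ((hcl _).2 (by rw [← hKi]; exact hKc)))
    intro x hx
    obtain ⟨y, hy, hxy⟩ := hK hx
    rwa [← Subtype.ext hxy]
  · rintro ⟨h3, h4⟩
    refine ⟨h0.2 h3, fun K hK hKc => (h1 K).2 (h4 _ (Set.image_mono hK) ((hcl K).1 hKc))⟩

/-- the atoms of one part are atoms of the whole graph -/
theorem atom_of_sub {K : Set X.V} (hK : X.graph.IsClique K) {S : Set X.V}
    {hS : (X.graph.induce S).Connected}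
    {h2 : ∃ a ∈ S, ∃ b ∈ S, a ≠ b}
    (hw : ∀ T : Set X.V, Whole X T → (∃ x ∈ T, x ∈ S ∧ x ∉ K) → T ⊆ S) {Z : BipGraph}
    (h3 : 3 ≤ Z.order) (hZ : IsAtomOf Z (sub X S hS h2)) : IsAtomOf Z X := by
  obtain ⟨T, hT, ⟨e⟩⟩ := hZ
  refine ⟨Subtype.val '' T, ⟨whole_image X |>.1 hT.1, ?_⟩, ⟨e.trans (imageIso X T)⟩⟩
  intro T' hT' hTT'
  have hx : ∃ x ∈ T', x ∈ S ∧ x ∉ K := by
    by_contra hno
    push Not at hno
    obtain ⟨a, b, c, hab, hac, hbc⟩ := Fintype.two_lt_card_iff.1 h3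
    have hval : ∀ {p q : Z.V}, p ≠ q → ((e p).1 : S).1 ≠ ((e q).1 : S).1 := fun hpq h =>
      hpq (e.injective (Subtype.ext (Subtype.ext h)))
    have hmem : ∀ p : Z.V, ((e p).1 : S).1 ∈ K := fun p =>
      hno _ (hTT' ⟨_, (e p).2, rfl⟩) (e p).1.2
    exact no_triangle X (hK (hmem a) (hmem b) (hval hab)) (hK (hmem a) (hmem c) (hval hac))
      (hK (hmem b) (hmem c) (hval hbc))
  have hsub := hw T' hT' hx
  have himg : T' = Subtype.val '' (Subtype.val ⁻¹' T' : Set S) := by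
    rw [Subtype.image_preimage_coe, Set.inter_eq_right.2 hsub]
  have h4 : Whole (sub X S hS h2) (Subtype.val ⁻¹' T' : Set S) := by
    rw [whole_image, ← himg]
    exact hT'
  have h5 : T ≤ (Subtype.val ⁻¹' T' : Set S) := fun x hx => hTT' ⟨x, hx, rfl⟩
  have h6 := hT.2 h4 h5
  intro x hx
  exact ⟨⟨x, hsub hx⟩, h6 hx, rfl⟩

theorem exists_atom_split (hX : ¬ Whole X Set.univ) : ∃ Y Z : BipGraph,
    Y.order < X.order ∧ Z.order < X.order ∧ (∀ T, 3 ≤ T.order → IsAtomOf T Y → IsAtomOf T X) ∧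
      (∀ T, 3 ≤ T.order → IsAtomOf T Z → IsAtomOf T X) ∧ IsGluing Y Z X := by
  classical
  have huniv : (X.graph.induce Set.univ).Connected := (induceUnivIso X.graph).connected_iff.2 X.conn
  have hX : ∃ K : Set X.V, X.graph.IsClique K ∧
      ¬ (X.graph.induce (Set.univ \ K)).Preconnected := by
    by_contra hno
    push Not at hno
    exact hX ⟨huniv, fun K _ hK => hno K hK⟩
  obtain ⟨K, hK, hw⟩ := hX
  have hKne : ∃ k, k ∈ K := by
    by_contra hno
    push Not at hno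
    have : K = ∅ := Set.eq_empty_iff_forall_notMem.2 hno
    rw [this, Set.sdiff_empty] at hw
    exact hw huniv.preconnected
  obtain ⟨k, hk⟩ := hKne
  rw [SimpleGraph.Preconnected] at hw
  push Not at hw
  obtain ⟨⟨a, ha'⟩, ⟨b, hb'⟩, hab⟩ := hw
  have ha : a ∉ K := ha'.2
  have hb : b ∉ K := hb'.2
  let G := X.graph.induce (Set.univ \ K)
  let C : Set X.V := {x | ∃ h : x ∈ (Set.univ \ K : Set X.V), G.Reachable ⟨a, ha'⟩ ⟨x, h⟩}
  have hKC : ∀ x ∈ K, x ∉ C := fun x hx h => h.1.2 hx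
  have haC : a ∈ C := ⟨ha', Reachable.refl _⟩
  have hbC : b ∉ C := fun h => hab h.2
  have hcl : ∀ {x y}, x ∈ C → X.graph.Adj x y → y ∉ K → y ∈ C := by
    rintro x y ⟨hx, hr⟩ hxy hy
    refine ⟨⟨Set.mem_univ _, hy⟩, hr.trans ?_⟩
    have : G.Adj ⟨x, hx⟩ ⟨y, ⟨Set.mem_univ _, hy⟩⟩ := hxy
    exact this.reachable
  -- a set which remains connected without `K` is on one side
  have hside : ∀ T : Set X.V, Whole X T → ∀ x ∈ T, ∀ y ∈ T, x ∉ K → y ∉ K → x ∈ C → y ∈ C := by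
    intro T hT x hx y hy hxw hyw hxC
    have hpre : (X.graph.induce (T \ (T ∩ K))).Preconnected :=
      hT.2 _ Set.inter_subset_left (hK.subset Set.inter_subset_right)
    obtain ⟨hx', hr⟩ := hxC
    refine ⟨⟨Set.mem_univ _, hyw⟩, hr.trans ?_⟩
    exact (hpre ⟨x, hx, fun h => hxw h.2⟩ ⟨y, hy, fun h => hyw h.2⟩).map
      (⟨fun z => ⟨z.1, Set.mem_univ _, fun h => z.2.2 ⟨z.2.1, h⟩⟩, fun h => h⟩ :
        X.graph.induce (T \ (T ∩ K)) →g X.graph.induce (Set.univ \ K))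
  let S₁ : Set X.V := {x | x ∈ C ∨ x ∈ K}
  let S₂ : Set X.V := {x | x ∉ C}
  have hK₁ : ∀ x ∈ K, x ∈ S₁ := fun x hx => Or.inr hx
  have hK₂ : ∀ x ∈ K, x ∈ S₂ := hKC
  have hkk : ∀ (S : Set X.V) (x : X.V) (hxS : x ∈ S) (hkS : k ∈ S), x ∈ K →
      (X.graph.induce S).Reachable ⟨x, hxS⟩ ⟨k, hkS⟩ := by
    intro S x hxS hkS hx
    by_cases hxk : x = k
    · subst hxk; exact Reachable.refl _
    · have : (X.graph.induce S).Adj ⟨x, hxS⟩ ⟨k, hkS⟩ := hK hx hk hxk
      exact this.reachable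
  have key : ∀ (x k' : X.V) (p : X.graph.Walk x k') (hk' : k' = k),
      (∀ h : x ∈ S₁, (X.graph.induce S₁).Reachable ⟨x, h⟩ ⟨k, hK₁ k hk⟩) ∧
        ∀ h : x ∈ S₂, (X.graph.induce S₂).Reachable ⟨x, h⟩ ⟨k, hK₂ k hk⟩ := by
    intro x k' p
    induction p with
    | nil =>
      intro hk'
      subst hk'
      exact ⟨fun h => Reachable.refl _, fun h => Reachable.refl _⟩
    | @cons x y k' hadj p ih =>
      intro hk'
      obtain ⟨h1, h2⟩ := ih hk'
      by_cases hx : x ∈ K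
      · exact ⟨fun h => hkk S₁ x h _ hx, fun h => hkk S₂ x h _ hx⟩
      · constructor
        · intro h
          have hxC : x ∈ C := h.resolve_right hx
          have hy : y ∈ S₁ := by
            by_cases hyw : y ∈ K
            · exact Or.inr hyw
            · exact Or.inl (hcl hxC hadj hyw)
          have : (X.graph.induce S₁).Adj ⟨x, h⟩ ⟨y, hy⟩ := hadj
          exact this.reachable.trans (h1 hy)
        · intro h
          have hy : y ∈ S₂ := fun hyC => h (hcl hyC hadj.symm hx)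
          have : (X.graph.induce S₂).Adj ⟨x, h⟩ ⟨y, hy⟩ := hadj
          exact this.reachable.trans (h2 hy)
  have key' : ∀ x : X.V, (∀ h : x ∈ S₁, (X.graph.induce S₁).Reachable ⟨x, h⟩ ⟨k, hK₁ k hk⟩) ∧
        ∀ h : x ∈ S₂, (X.graph.induce S₂).Reachable ⟨x, h⟩ ⟨k, hK₂ k hk⟩ := by
    intro x
    obtain ⟨p⟩ := X.conn.preconnected x k
    exact key x k p rfl
  have c₁ : (X.graph.induce S₁).Connected := by
    have : Nonempty S₁ := ⟨⟨k, hK₁ k hk⟩⟩
    exact ⟨fun x y => ((key' x.1).1 x.2).trans ((key' y.1).1 y.2).symm⟩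
  have c₂ : (X.graph.induce S₂).Connected := by
    have : Nonempty S₂ := ⟨⟨k, hK₂ k hk⟩⟩
    exact ⟨fun x y => ((key' x.1).2 x.2).trans ((key' y.1).2 y.2).symm⟩
  have t₁ : ∃ a ∈ S₁, ∃ b ∈ S₁, a ≠ b := ⟨a, Or.inl haC, k, hK₁ k hk, fun h => ha (h ▸ hk)⟩
  have t₂ : ∃ a ∈ S₂, ∃ b ∈ S₂, a ≠ b := ⟨b, hbC, k, hK₂ k hk, fun h => hb (h ▸ hk)⟩
  refine ⟨sub X S₁ c₁ t₁, sub X S₂ c₂ t₂,
    sub_order_lt X c₁ t₁ ⟨b, ?_⟩, sub_order_lt X c₂ t₂ ⟨a, fun h => h haC⟩,
    fun T h3 hT => atom_of_sub X hK ?_ h3 hT, fun T h3 hT => atom_of_sub X hK ?_ h3 hT, ?_⟩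
  · rintro (h | h)
    · exact hbC h
    · exact hb h
  · rintro T hT ⟨x, hx, hxS, hxw⟩ y hy
    by_cases hyw : y ∈ K
    · exact Or.inr hyw
    · exact Or.inl (hside T hT x hx y hy hxw hyw (hxS.resolve_right hxw))
  · rintro T hT ⟨x, hx, hxS, hxw⟩ y hy hyC
    have hyw : y ∉ K := fun h => hKC y h hyC
    exact hxS (hside T hT y hy x hx hyw hxw hyC)
  · refine ⟨fun x => x.1, fun x => x.1, Subtype.val_injective, Subtype.val_injective, ?_, ?_, ?_⟩
    · intro x
      by_cases hx : x ∈ C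
      · exact Or.inl ⟨⟨x, Or.inl hx⟩, rfl⟩
      · exact Or.inr ⟨⟨x, hx⟩, rfl⟩
    · intro x y
      constructor
      · intro hxy
        by_cases hx : x ∈ C
        · have hy : y ∈ S₁ := by
            by_cases hyw : y ∈ K
            · exact Or.inr hyw
            · exact Or.inl (hcl hx hxy hyw)
          exact Or.inl ⟨⟨x, Or.inl hx⟩, ⟨y, hy⟩, hxy, rfl, rfl⟩
        · by_cases hy : y ∈ C
          · have hx' : x ∈ S₁ := by
              by_cases hxw : x ∈ K
              · exact Or.inr hxw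
              · exact absurd (hcl hy hxy.symm hxw) hx
            exact Or.inl ⟨⟨x, hx'⟩, ⟨y, Or.inl hy⟩, hxy, rfl, rfl⟩
          · exact Or.inr ⟨⟨x, hx⟩, ⟨y, hy⟩, hxy, rfl, rfl⟩
      · rintro (⟨x', y', h, rfl, rfl⟩ | ⟨x', y', h, rfl, rfl⟩)
        · exact h
        · exact h
    · -- the common vertices are the vertices of `K`
      have hcom : ∀ (x : S₁) (y : S₂), x.1 = y.1 → x.1 ∈ K := by
        intro x y h
        rcases x.2 with h1 | h1
        · rw [h] at h1; exact absurd h1 y.2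
        · exact h1
      by_cases hone : ∀ x ∈ K, x = k
      · left
        refine ⟨⟨k, hK₁ k hk⟩, ⟨k, hK₂ k hk⟩, fun x y => ⟨fun h => ?_, fun h => ?_⟩⟩
        · have h1 := hone _ (hcom x y h)
          exact ⟨Subtype.ext h1, Subtype.ext (h.symm.trans h1)⟩
        · rw [h.1, h.2]
      · right
        push Not at hone
        obtain ⟨k', hk', hne⟩ := hone
        have hadj : X.graph.Adj k k' := hK hk hk' (Ne.symm hne)
        have htwo : ∀ x ∈ K, x = k ∨ x = k' := by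
          intro x hx
          by_contra hno
          push Not at hno
          exact no_triangle X hadj (hK hk hx (Ne.symm hno.1)) (hK hk' hx (Ne.symm hno.2))
        refine ⟨⟨k, hK₁ k hk⟩, ⟨k', hK₁ k' hk'⟩, ⟨k, hK₂ k hk⟩, ⟨k', hK₂ k' hk'⟩, hadj, hadj,
          fun x y => ⟨fun h => ?_, fun h => ?_⟩⟩
        · rcases htwo _ (hcom x y h) with h1 | h1
          · exact Or.inl ⟨Subtype.ext h1, Subtype.ext (h.symm.trans h1)⟩
          · exact Or.inr ⟨Subtype.ext h1, Subtype.ext (h.symm.trans h1)⟩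
        · rcases h with h | h
          · rw [h.1, h.2]
          · rw [h.1, h.2]

end

theorem atom_self {X : BipGraph} (h : Whole X Set.univ) : IsAtomOf X X :=
  ⟨Set.univ, ⟨h, fun _ _ _ => Set.subset_univ _⟩, ⟨(induceUnivIso X.graph).symm⟩⟩

/-- **Reduction to the atoms.** -/
theorem goodP_of_atoms : ∀ (k : ℕ) (X : BipGraph), X.order = k →
    (∀ Y : BipGraph, IsAtomOf Y X → 3 ≤ Y.order → GoodP Y) → GoodP X := by
  intro k
  induction k using Nat.strong_induction_on with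
  | _ k ih =>
    intro X hk hX
    by_cases h2 : X.order = 2
    · exact goodP_two h2
    · have h3 : 3 ≤ X.order := by
        have := X.two
        have : X.order = Fintype.card X.V := rfl
        omega
      by_cases hc : Whole X Set.univ
      · exact hX X (atom_self hc) h3
      · obtain ⟨Y, Z, hY, hZ, hYX, hZX, hG⟩ := exists_atom_split X hc
        have h1 := ih _ (by omega) Y rfl fun T hT h3 => hX T (hYX T h3 hT) h3
        have h2 := ih _ (by omega) Z rfl fun T hT h3 => hX T (hZX T h3 hT) h3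
        exact hG.goodP h1 (Or.inl h2)

theorem q1_of_atoms (X : BipGraph) (h3 : 3 ≤ X.order)
    (hX : ∀ Y : BipGraph, IsAtomOf Y X → 3 ≤ Y.order →
      (∃ a b : Y.V, Y.col a ≠ Y.col b ∧ SameOrder (Y.glue Y a b).ex Y.ex) ∨
        ∃ σ : Y.graph ≃g Y.graph, ∀ x, Y.col (σ x) ≠ Y.col x) : Q1 X := by
  have h := (goodP_of_atoms _ X rfl fun Y hY hY3 => ?_).good h3
  · exact fun u v _ => q1_of_good h3 h u v
  · rcases hX Y hY hY3 with ⟨a, b, hab, h⟩ | ⟨σ, hσ⟩
    · exact (good_of_pair hab h).goodP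
    · exact (good_of_swap σ hσ).goodP

theorem IsGluing.order {X Y G : BipGraph} (h : IsGluing X Y G) (h3 : 3 ≤ X.order) :
    3 ≤ G.order := by
  obtain ⟨f, g, hf, hg, hcov, hadj, hroot⟩ := h
  exact h3.trans (Fintype.card_le_of_injective f hf)

theorem closure {X Y G : BipGraph} (hG : IsGluing X Y G)
    (hX : ∃ a b : X.V, X.col a ≠ X.col b ∧ SameOrder (X.glue X a b).ex X.ex)
    (hY : (∃ a b : Y.V, Y.col a ≠ Y.col b ∧ SameOrder (Y.glue Y a b).ex Y.ex) ∨
      Y.graph ⊑ X.graph) : Q1 G ∧ SameOrder G.ex fun n => X.ex n + Y.ex n := by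
  obtain ⟨a, b, hab, h⟩ := hX
  have h3 := order_of_pair h
  have hX' : GoodP X := (good_of_pair hab h).goodP
  have hY' : GoodP Y ∨ Y.graph ⊑ X.graph := by
    rcases hY with ⟨a', b', hab', h'⟩ | hY
    · exact Or.inl (good_of_pair hab' h').goodP
    · exact Or.inr hY
  exact ⟨fun x y _ => q1_of_good (hG.order h3) ((hG.goodP hX' hY').good (hG.order h3)) x y,
    hG.same_sum h3 hX' hY'⟩

end Pool.Glue28
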