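import Mathlib

/-!
# Two copies of a bipartite graph glued at a vertex: the tools
-/

set_option autoImplicit false

namespace Pool.Glue28

open Finset SimpleGraph

section

variable {V : Type}

/-- two proper colourings with two colours of a connected graph which agree at one vertex agree -/
theorem col_eq {H : SimpleGraph V} (hH : H.Connected) {c s : V → Bool}
    (hc : ∀ x y, H.Adj x y → c x ≠ c y) (hs : ∀ x y, H.Adj x y → s x ≠ s y) {w : V}
    (hw : s w = c w) (x : V) : s x = c x := by
  obtain ⟨p⟩ := hH.preconnected w x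
  induction p with
  | nil => exact hw
  | cons hadj p ih =>
    refine ih ?_
    have h1 := hc _ _ hadj
    have h2 := hs _ _ hadj
    rw [hw] at h2
    revert h1 h2
    generalize c _ = a
    generalize c _ = b
    generalize s _ = d
    cases a <;> cases b <;> cases d <;> simp

/-- in a connected graph with at least two vertices every vertex has a neighbour -/
theorem exists_nb {H : SimpleGraph V} (hH : H.Connected) {x y : V} (hxy : x ≠ y) :
    ∃ z, H.Adj x z := by
  obtain ⟨p⟩ := hH.preconnected x y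
  cases p with
  | nil => exact absurd rfl hxy
  | cons h _ => exact ⟨_, h⟩

/-- in a connected graph with at least three vertices some vertex has two neighbours -/
theorem exists_two [Fintype V] {H : SimpleGraph V} (hH : H.Connected)
    (h3 : 3 ≤ Fintype.card V) : ∃ a b b', H.Adj a b ∧ H.Adj a b' ∧ b ≠ b' := by
  classical
  by_contra hno
  push Not at hno
  obtain ⟨x⟩ := hH.nonempty
  have h2 : ∃ y, x ≠ y := by
    by_contra hall
    push Not at hall
    have : Fintype.card V ≤ 1 := Fintype.card_le_one_iff.2 fun a b => by rw [← hall a, ← hall b]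
    omega
  obtain ⟨y, hxy⟩ := h2
  obtain ⟨z, hz⟩ := exists_nb hH hxy
  -- everything is x or z
  have hall : ∀ w, w = x ∨ w = z := by
    intro w
    obtain ⟨p⟩ := hH.preconnected x w
    have key : ∀ (a b : V) (p : H.Walk a b), (a = x ∨ a = z) → (b = x ∨ b = z) := by
      intro a b p
      induction p with
      | nil => exact id
      | cons hadj p ih =>
        intro ha
        refine ih ?_
        rcases ha with rfl | rfl
        · right; exact (hno _ _ _ hadj hz)
        · left; exact (hno _ _ _ hadj hz.symm)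
    exact key _ _ p (Or.inl rfl)
  have hcard : Fintype.card V ≤ 2 := by
    rw [← Finset.card_univ]
    refine (Finset.card_le_card (t := ({x, z} : Finset V)) fun w _ => ?_).trans
      Finset.card_le_two
    rcases hall w with rfl | rfl <;> simp
  omega

/-- `Z`, as a bipartite graph, has a copy of `H` such that the vertices of colour `true` are in the
first side. -/
def HasCopy (H : SimpleGraph V) (c : V → Bool) {n : ℕ} (Z : Finset (Fin n × Fin n)) : Prop :=
  ∃ f : V → Fin n, (∀ x y, c x = c y → f x = f y → x = y) ∧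
    ∀ x y, c x = true → c y = false → H.Adj x y → (f x, f y) ∈ Z

/-- the largest size of a `Z` without such a copy -/
noncomputable def zar (H : SimpleGraph V) (c : V → Bool) (n : ℕ) : ℕ :=
  sSup {k | ∃ Z : Finset (Fin n × Fin n), ¬ HasCopy H c Z ∧ Z.card = k}

theorem zar_bdd (H : SimpleGraph V) (c : V → Bool) (n : ℕ) :
    BddAbove {k | ∃ Z : Finset (Fin n × Fin n), ¬ HasCopy H c Z ∧ Z.card = k} := by
  refine ⟨n * n, ?_⟩
  rintro k ⟨Z, -, rfl⟩
  simpa using Finset.card_le_univ Z

theorem le_zar {H : SimpleGraph V} {c : V → Bool} {n : ℕ} {Z : Finset (Fin n × Fin n)}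
    (h : ¬ HasCopy H c Z) : Z.card ≤ zar H c n :=
  le_csSup (zar_bdd H c n) ⟨Z, h, rfl⟩

theorem zar_le {H : SimpleGraph V} {c : V → Bool} {n m : ℕ}
    (hne : ∃ Z : Finset (Fin n × Fin n), ¬ HasCopy H c Z)
    (h : ∀ Z : Finset (Fin n × Fin n), ¬ HasCopy H c Z → Z.card ≤ m) : zar H c n ≤ m := by
  obtain ⟨Z, hZ⟩ := hne
  refine csSup_le ⟨_, Z, hZ, rfl⟩ ?_
  rintro k ⟨Z, hZ, rfl⟩
  exact h Z hZ

/-- exchange of the sides -/
theorem hasCopy_not {H : SimpleGraph V} {c : V → Bool} {n : ℕ} {Z : Finset (Fin n × Fin n)}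
    (h : HasCopy H c (Z.map (Equiv.prodComm _ _).toEmbedding)) :
    HasCopy H (fun x => !c x) Z := by
  obtain ⟨f, hf, hZ⟩ := h
  refine ⟨f, fun x y hxy => hf x y (by simpa using hxy), ?_⟩
  intro x y hx hy hadj
  have h1 := hZ y x (by simpa using hy) (by simpa using hx) hadj.symm
  rw [Finset.mem_map] at h1
  obtain ⟨p, hp, he⟩ := h1
  have h2 : p = (f x, f y) := by
    rw [Equiv.coe_toEmbedding, Equiv.prodComm_apply] at he
    rw [← Prod.swap_swap p, he, Prod.swap_prod_mk]
  rwa [h2] at hp

theorem le_zar_not {H : SimpleGraph V} {c : V → Bool} {n : ℕ} {Z : Finset (Fin n × Fin n)}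
    (h : ¬ HasCopy H (fun x => !c x) Z) : Z.card ≤ zar H c n := by
  rw [← Finset.card_map (Equiv.prodComm (Fin n) (Fin n)).toEmbedding]
  exact le_zar fun h' => h (hasCopy_not h')

/-- the diagonal has no copy -/
theorem diag_free [Fintype V] {H : SimpleGraph V} {c : V → Bool} (hH : H.Connected)
    (hc : ∀ x y, H.Adj x y → c x ≠ c y) (h3 : 3 ≤ Fintype.card V) (n : ℕ) :
    ¬ HasCopy H c ((Finset.univ : Finset (Fin n)).map ⟨fun i => (i, i), fun i j h =>
      (Prod.ext_iff.1 h).1⟩) := by
  rintro ⟨f, hf, hZ⟩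
  obtain ⟨a, b, b', hb, hb', hne⟩ := exists_two hH h3
  have h1 : ∀ x y, H.Adj x y → f x = f y := by
    intro x y hadj
    have key : ∀ x y, c x = true → c y = false → H.Adj x y → f x = f y := by
      intro x y hx hy hadj
      have := hZ x y hx hy hadj
      rw [Finset.mem_map] at this
      obtain ⟨i, -, hi⟩ := this
      have h1 : i = f x := (Prod.ext_iff.1 hi).1
      have h2 : i = f y := (Prod.ext_iff.1 hi).2
      rw [← h1, ← h2]
    have hne := hc x y hadj
    rcases hx : c x with _ | _
    · rcases hy : c y with _ | _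
      · rw [hx, hy] at hne; exact absurd rfl hne
      · exact (key y x hy hx hadj.symm).symm
    · rcases hy : c y with _ | _
      · exact key x y hx hy hadj
      · rw [hx, hy] at hne; exact absurd rfl hne
  refine hne (hf b b' ?_ ((h1 a b hb).symm.trans (h1 a b' hb')))
  have e1 := hc a b hb
  have e2 := hc a b' hb'
  revert e1 e2
  cases c a <;> cases c b <;> cases c b' <;> simp

theorem n_le_zar [Fintype V] {H : SimpleGraph V} {c : V → Bool} (hH : H.Connected)
    (hc : ∀ x y, H.Adj x y → c x ≠ c y) (h3 : 3 ≤ Fintype.card V) (n : ℕ) : n ≤ zar H c n := by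
  have h := le_zar (diag_free hH hc h3 n)
  rwa [Finset.card_map, Finset.card_univ, Fintype.card_fin] at h

/-- the bipartite graph of `Z` -/
def bip {n : ℕ} (Z : Finset (Fin n × Fin n)) : SimpleGraph (Fin n ⊕ Fin n) where
  Adj a b := (∃ p q, (p, q) ∈ Z ∧ a = Sum.inl p ∧ b = Sum.inr q) ∨
    ∃ p q, (p, q) ∈ Z ∧ b = Sum.inl p ∧ a = Sum.inr q
  symm := ⟨fun a b h => h.elim Or.inr Or.inl⟩
  loopless := ⟨by
    rintro a (⟨p, q, -, h1, h2⟩ | ⟨p, q, -, h1, h2⟩)
    · rw [h1] at h2; cases h2
    · rw [h1] at h2; cases h2⟩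

theorem bip_adj {n : ℕ} {Z : Finset (Fin n × Fin n)} {p q : Fin n} :
    (bip Z).Adj (Sum.inl p) (Sum.inr q) ↔ (p, q) ∈ Z := by
  constructor
  · rintro (⟨p', q', h, h1, h2⟩ | ⟨p', q', h, h1, h2⟩)
    · cases h1; cases h2; exact h
    · cases h1
  · exact fun h => Or.inl ⟨p, q, h, rfl, rfl⟩

theorem bip_side {n : ℕ} {Z : Finset (Fin n × Fin n)} {a b : Fin n ⊕ Fin n}
    (h : (bip Z).Adj a b) : a.isLeft ≠ b.isLeft := by
  rcases h with ⟨p, q, -, rfl, rfl⟩ | ⟨p, q, -, rfl, rfl⟩ <;> simp

theorem bip_card {n : ℕ} (Z : Finset (Fin n × Fin n)) [Fintype (bip Z).edgeSet] :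
    (bip Z).edgeFinset.card = Z.card := by
  classical
  symm
  refine Finset.card_bij (fun p _ => s(Sum.inl p.1, Sum.inr p.2)) ?_ ?_ ?_
  · rintro ⟨p, q⟩ h
    rw [SimpleGraph.mem_edgeFinset, SimpleGraph.mem_edgeSet]
    exact bip_adj.2 h
  · rintro ⟨p, q⟩ _ ⟨p', q'⟩ _ h
    rw [Sym2.eq_iff] at h
    rcases h with ⟨h1, h2⟩ | ⟨h1, h2⟩
    · cases h1; cases h2; rfl
    · cases h1
  · intro e he
    induction e using Sym2.ind with
    | _ a b =>
      rw [SimpleGraph.mem_edgeFinset, SimpleGraph.mem_edgeSet] at he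
      rcases he with ⟨p, q, h, rfl, rfl⟩ | ⟨p, q, h, rfl, rfl⟩
      · exact ⟨(p, q), h, rfl⟩
      · exact ⟨(p, q), h, Sym2.eq_swap⟩

/-- the underlying element -/
def val {n : ℕ} : Fin n ⊕ Fin n → Fin n := Sum.elim id id

/-- a copy of `H` in the bipartite graph of `Z` with the colour `true` on the left -/
theorem hasCopy_of {H : SimpleGraph V} {c : V → Bool} {n : ℕ} {Z : Finset (Fin n × Fin n)}
    (F : V → Fin n ⊕ Fin n) (hF : Function.Injective F)
    (hadj : ∀ x y, H.Adj x y → (bip Z).Adj (F x) (F y)) (hside : ∀ x, (F x).isLeft = c x) :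
    HasCopy H c Z := by
  have hl : ∀ x, c x = true → F x = Sum.inl (val (F x)) := by
    intro x hx
    have h := hside x
    rcases h1 : F x with p | p
    · rfl
    · rw [h1, hx] at h; simp at h
  have hr : ∀ x, c x = false → F x = Sum.inr (val (F x)) := by
    intro x hx
    have h := hside x
    rcases h1 : F x with p | p
    · rw [h1, hx] at h; simp at h
    · rfl
  refine ⟨fun x => val (F x), ?_, ?_⟩
  · intro x y hxy he
    have he' : val (F x) = val (F y) := he
    apply hF
    rcases hx : c x with _ | _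
    · rw [hr x hx, hr y (by rw [← hxy, hx]), he']
    · rw [hl x hx, hl y (by rw [← hxy, hx]), he']
  · intro x y hx hy h
    have h1 := hadj x y h
    rw [hl x hx, hr y hy] at h1
    exact bip_adj.1 h1

end

end Pool.Glue28
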