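import Mathlib

/-!
# Bipartite graphs glued at a vertex: the definitions
-/

set_option autoImplicit false

namespace Pool.Glue28

open Finset SimpleGraph

/-! ### The glued graph -/

section

variable {V W : Type} [DecidableEq W]

/-- the second graph in the glued graph -/
def second (u : V) (v : W) (x : W) : V ⊕ {x : W // x ≠ v} :=
  if h : x = v then Sum.inl u else Sum.inr ⟨x, h⟩

theorem second_v (u : V) (v : W) : second u v v = Sum.inl u := dif_pos rfl

theorem second_ne (u : V) {v x : W} (h : x ≠ v) : second u v x = Sum.inr ⟨x, h⟩ := dif_neg h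

theorem second_injective (u : V) (v : W) : Function.Injective (second u v) := by
  intro x y h
  by_cases hx : x = v <;> by_cases hy : y = v
  · rw [hx, hy]
  · rw [hx, second_v, second_ne u hy] at h; cases h
  · rw [hy, second_v, second_ne u hx] at h; cases h
  · rw [second_ne u hx, second_ne u hy] at h
    have := Sum.inr_injective h
    exact (Subtype.mk.injEq _ _ _ _ ▸ this :)

/-- The graph obtained from the disjoint graphs `H₁` and `H₂` by identifying the vertex `u` of `H₁`
with the vertex `v` of `H₂`. -/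
def glue (H₁ : SimpleGraph V) (H₂ : SimpleGraph W) (u : V) (v : W) :
    SimpleGraph (V ⊕ {x : W // x ≠ v}) :=
  H₁.map (Sum.inl : V → V ⊕ {x : W // x ≠ v}) ⊔ H₂.map (second u v)

variable {H₁ : SimpleGraph V} {H₂ : SimpleGraph W} {u : V} {v : W}

theorem glue_inl {x y : V} (h : H₁.Adj x y) :
    (glue H₁ H₂ u v).Adj (Sum.inl x) (Sum.inl y) :=
  Or.inl (map_adj_apply' h fun h' => h.ne (Sum.inl_injective h'))

theorem glue_second {x y : W} (h : H₂.Adj x y) :
    (glue H₁ H₂ u v).Adj (second u v x) (second u v y) :=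
  Or.inr (map_adj_apply' h fun h' => h.ne (second_injective u v h'))

theorem glue_cases {a b : V ⊕ {x : W // x ≠ v}} (h : (glue H₁ H₂ u v).Adj a b) :
    (∃ x y, H₁.Adj x y ∧ Sum.inl x = a ∧ Sum.inl y = b) ∨
      ∃ x y, H₂.Adj x y ∧ second u v x = a ∧ second u v y = b := by
  rcases h with ⟨-, a', b', hab, rfl, rfl⟩ | ⟨-, a', b', hab, rfl, rfl⟩
  · exact Or.inl ⟨a', b', hab, rfl, rfl⟩
  · exact Or.inr ⟨a', b', hab, rfl, rfl⟩

theorem left_contained : H₁ ⊑ glue H₁ H₂ u v :=
  ⟨⟨⟨Sum.inl, fun h => glue_inl h⟩, Sum.inl_injective⟩⟩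

theorem right_contained : H₂ ⊑ glue H₁ H₂ u v :=
  ⟨⟨⟨second u v, fun h => glue_second h⟩, second_injective u v⟩⟩

theorem second_surj (a : V ⊕ {x : W // x ≠ v}) :
    (∃ x, a = Sum.inl x) ∨ ∃ x, a = second u v x := by
  rcases a with x | ⟨x, hx⟩
  · exact Or.inl ⟨x, rfl⟩
  · exact Or.inr ⟨x, (second_ne u hx).symm⟩

theorem glue_connected (h₁ : H₁.Connected) (h₂ : H₂.Connected) :
    (glue H₁ H₂ u v).Connected := by
  have key : ∀ a, (glue H₁ H₂ u v).Reachable (Sum.inl u) a := by
    intro a
    rcases second_surj (u := u) a with ⟨x, rfl⟩ | ⟨x, rfl⟩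
    · exact (h₁.preconnected u x).map ⟨Sum.inl, fun h => glue_inl h⟩
    · have := (h₂.preconnected v x).map (G' := glue H₁ H₂ u v)
        ⟨second u v, fun h => glue_second h⟩
      rw [← second_v u v]
      exact this
  have : Nonempty (V ⊕ {x : W // x ≠ v}) := ⟨Sum.inl u⟩
  exact ⟨fun a b => (key a).symm.trans (key b)⟩

/-- the colouring of the glued graph -/
def gcol (c₁ : V → Bool) (c₂ : W → Bool) (u : V) (v : W) : V ⊕ {x : W // x ≠ v} → Bool :=
  Sum.elim c₁ fun x => if c₁ u = c₂ v then c₂ x.1 else !c₂ x.1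

theorem gcol_second (c₁ : V → Bool) (c₂ : W → Bool) (u : V) (v : W) (x : W) :
    gcol c₁ c₂ u v (second u v x) = if c₁ u = c₂ v then c₂ x else !c₂ x := by
  by_cases hx : x = v
  · subst hx
    rw [second_v]
    change c₁ u = _
    cases c₁ u <;> cases c₂ x <;> simp
  · rw [second_ne u hx]
    rfl

theorem gcol_proper {c₁ : V → Bool} {c₂ : W → Bool} (h₁ : ∀ x y, H₁.Adj x y → c₁ x ≠ c₁ y)
    (h₂ : ∀ x y, H₂.Adj x y → c₂ x ≠ c₂ y) :
    ∀ a b, (glue H₁ H₂ u v).Adj a b → gcol c₁ c₂ u v a ≠ gcol c₁ c₂ u v b := by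
  intro a b h
  rcases glue_cases h with ⟨x, y, hxy, rfl, rfl⟩ | ⟨x, y, hxy, rfl, rfl⟩
  · exact h₁ x y hxy
  · rw [gcol_second, gcol_second]
    have := h₂ x y hxy
    split_ifs
    · exact this
    · revert this
      cases c₂ x <;> cases c₂ y <;> simp

end

/-- A finite connected bipartite graph with at least two vertices, with its proper colouring by two
colours (the two sides). -/
structure BipGraph where
  V : Type
  [fin : Fintype V]
  [dec : DecidableEq V]
  graph : SimpleGraph V
  conn : graph.Connected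
  two : 2 ≤ Fintype.card V
  col : V → Bool
  proper : ∀ x y, graph.Adj x y → col x ≠ col y

attribute [instance] BipGraph.fin BipGraph.dec

namespace BipGraph

/-- The graph obtained from `X` and `Y` by identifying `u` with `v`. -/
def glue (X Y : BipGraph) (u : X.V) (v : Y.V) : BipGraph where
  V := X.V ⊕ {x : Y.V // x ≠ v}
  graph := Glue28.glue X.graph Y.graph u v
  conn := glue_connected X.conn Y.conn
  two := by
    rw [Fintype.card_sum]
    exact X.two.trans (Nat.le_add_right _ _)
  col := gcol X.col Y.col u v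
  proper := gcol_proper X.proper Y.proper

/-- the number of vertices -/
def order (X : BipGraph) : ℕ := Fintype.card X.V

/-- the extremal number -/
noncomputable def ex (X : BipGraph) (n : ℕ) : ℕ := extremalNumber n X.graph

end BipGraph

/-- `f` and `g` have the same order. -/
def SameOrder (f g : ℕ → ℕ) : Prop := ∃ C : ℕ, ∀ n, 2 ≤ n → f n ≤ C * g n ∧ g n ≤ C * f n

/-- The question for the graph `H`: for all vertices on different sides, two copies of `H` glued there
have an extremal number of the same order as that of `H`. -/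
def Q1 (H : BipGraph) : Prop :=
  ∀ u v : H.V, H.col u ≠ H.col v → SameOrder (H.glue H u v).ex H.ex

/-- The subgraph induced on `T` is connected, and it remains connected when a vertex is deleted. -/
def Two (X : BipGraph) (T : Set X.V) : Prop :=
  (X.graph.induce T).Connected ∧ ∀ w ∈ T, (X.graph.induce (T \ {w})).Preconnected

/-- `Y` is a block of `X`: it is isomorphic to the subgraph induced on a maximal set with the
property `Two`. -/
def IsBlockOf (Y X : BipGraph) : Prop :=
  ∃ S : Set X.V, Maximal (Two X) S ∧ Nonempty (Y.graph ≃g X.graph.induce S)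

end Pool.Glue28
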