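import Pool.Agent.H28.Glue.Basic
import Pool.Agent.H28.Glue.Defs

/-!
# Two bipartite graphs glued at a vertex
-/

set_option autoImplicit false

namespace Pool.Glue28

open Finset SimpleGraph

/-! ### An averaging lemma -/

/-- labellings with given values on a small set -/
theorem count_labels {α : Type*} [Fintype α] [DecidableEq α] (T : Finset α) (w : α → Bool) {t : ℕ}
    (ht : T.card ≤ t) : 2 ^ Fintype.card α ≤
      2 ^ t * (Finset.univ.filter fun l : α → Bool => ∀ x ∈ T, l x = w x).card := by
  classical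
  have h1 : (Finset.univ : Finset (α → Bool)).card = 2 ^ Fintype.card α := by
    rw [Finset.card_univ, Fintype.card_fun, Fintype.card_bool]
  have h2 : (Finset.univ : Finset (α → Bool)).card ≤
      ((Finset.univ : Finset (T → Bool)) ×ˢ
        (Finset.univ.filter fun l : α → Bool => ∀ x ∈ T, l x = w x)).card := by
    refine Finset.card_le_card_of_injOn
      (fun l => (fun x : T => l x.1, fun x => if x ∈ T then w x else l x)) ?_ ?_
    · intro l _
      simp only [Finset.coe_product, Set.mem_prod, Finset.mem_coe, Finset.mem_univ,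
        Finset.mem_filter, true_and]
      intro x hx
      simp [hx]
    · intro l _ l' _ h
      rw [Prod.mk.injEq] at h
      funext x
      by_cases hx : x ∈ T
      · exact congrFun h.1 ⟨x, hx⟩
      · have := congrFun h.2 x
        simpa [hx] using this
  rw [h1, Finset.card_product, Finset.card_univ, Fintype.card_fun, Fintype.card_bool,
    Fintype.card_coe] at h2
  exact h2.trans (Nat.mul_le_mul_right _ (Nat.pow_le_pow_right (by norm_num) ht))

theorem average {ι α : Type*} [Fintype α] [DecidableEq α] (P : Finset ι)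
    (T : ι → Finset α) (w : ι → α → Bool) {t M : ℕ} (hT : ∀ i ∈ P, (T i).card ≤ t)
    (hM : ∀ l : α → Bool, ∀ Q ⊆ P, (∀ i ∈ Q, ∀ x ∈ T i, l x = w i x) → Q.card ≤ M) :
    P.card ≤ 2 ^ t * M := by
  classical
  have h1 : P.card * 2 ^ Fintype.card α ≤
      2 ^ t * ∑ l : α → Bool, (P.filter fun i => ∀ x ∈ T i, l x = w i x).card := by
    have h2 : ∀ l : α → Bool, (P.filter fun i => ∀ x ∈ T i, l x = w i x).card =
        ∑ i ∈ P, if (∀ x ∈ T i, l x = w i x) then 1 else 0 := fun l => by
      rw [Finset.card_filter]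
    rw [Finset.sum_congr rfl fun l _ => h2 l, Finset.sum_comm, Finset.mul_sum,
      ← smul_eq_mul (a := P.card), ← Finset.sum_const]
    refine Finset.sum_le_sum fun i hi => ?_
    rw [← Finset.card_filter]
    exact count_labels (T i) (w i) (hT i hi)
  have h3 : ∑ l : α → Bool, (P.filter fun i => ∀ x ∈ T i, l x = w i x).card ≤
      2 ^ Fintype.card α * M := by
    refine (Finset.sum_le_card_nsmul _ _ M fun l _ => hM l _ (Finset.filter_subset _ _)
      fun i hi => (Finset.mem_filter.1 hi).2).trans ?_
    rw [Finset.card_univ, Fintype.card_fun, Fintype.card_bool, smul_eq_mul]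
  refine Nat.le_of_mul_le_mul_right (h1.trans ?_) (pow_pos (by norm_num : 0 < 2)
    (Fintype.card α))
  calc 2 ^ t * ∑ l : α → Bool, (P.filter fun i => ∀ x ∈ T i, l x = w i x).card
      ≤ 2 ^ t * (2 ^ Fintype.card α * M) := Nat.mul_le_mul_left _ h3
    _ = 2 ^ t * M * 2 ^ Fintype.card α := by ring

/-! ### One-sided copies -/

section

variable {V W : Type}

theorem empty_free {H : SimpleGraph V} {c : V → Bool} (he : ∃ x y, H.Adj x y)
    (hc : ∀ x y, H.Adj x y → c x ≠ c y) (n : ℕ) :
    ¬ HasCopy H c (∅ : Finset (Fin n × Fin n)) := by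
  rintro ⟨f, -, hf⟩
  obtain ⟨x, y, hxy⟩ := he
  have hne := hc x y hxy
  rcases hx : c x with _ | _ <;> rcases hy : c y with _ | _
  · rw [hx, hy] at hne; exact hne rfl
  · exact absurd (hf y x hy hx hxy.symm) (Finset.notMem_empty _)
  · exact absurd (hf x y hx hy hxy) (Finset.notMem_empty _)
  · rw [hx, hy] at hne; exact hne rfl

theorem zar_not {H : SimpleGraph V} {c : V → Bool} (he : ∃ x y, H.Adj x y)
    (hc : ∀ x y, H.Adj x y → c x ≠ c y) (n : ℕ) :
    zar H (fun x => !c x) n = zar H c n := by
  have hc' : ∀ x y, H.Adj x y → (!c x) ≠ (!c y) := fun x y h h' => hc x y h (by simpa using h')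
  apply le_antisymm
  · exact zar_le ⟨_, empty_free he hc' n⟩ fun Z hZ => le_zar_not hZ
  · refine zar_le ⟨_, empty_free he hc n⟩ fun Z hZ => le_zar_not ?_
    simpa using hZ

/-- the one-sided number does not depend on the proper colouring -/
theorem zar_col {H : SimpleGraph V} {c c' : V → Bool} (hH : H.Connected) (he : ∃ x y, H.Adj x y)
    (hc : ∀ x y, H.Adj x y → c x ≠ c y) (hc' : ∀ x y, H.Adj x y → c' x ≠ c' y) (n : ℕ) :
    zar H c' n = zar H c n := by
  obtain ⟨w⟩ := hH.nonempty
  by_cases hw : c' w = c w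
  · have h : c' = c := funext (col_eq hH hc hc' hw)
    rw [h]
  · have hcn : ∀ x y, H.Adj x y → (!c x) ≠ (!c y) := fun x y h h' => hc x y h (by simpa using h')
    have hw' : c' w = !c w := by
      revert hw
      cases c' w <;> cases c w <;> simp
    have h : c' = fun x => !c x := funext (col_eq hH hcn hc' hw')
    rw [h]
    exact zar_not he hc n

open Classical in
/-- the extremal number is at most twice the one-sided number -/
theorem ex_le_zar {H : SimpleGraph V} {c : V → Bool} (hnb : ∀ x, ∃ y, H.Adj x y)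
    (hc : ∀ x y, H.Adj x y → c x ≠ c y) (n : ℕ) : extremalNumber n H ≤ 2 * zar H c n := by
  rw [← Fintype.card_fin n, extremalNumber_le_iff, Fintype.card_fin]
  intro G _ hG
  let P : Finset (Fin n × Fin n) := Finset.univ.filter fun x => G.Adj x.1 x.2
  have hP : P.card = 2 * G.edgeFinset.card := by
    have h1 := G.sum_degrees_eq_twice_card_edges
    rw [← h1]
    have h2 : P = (Finset.univ.sigma (fun x : Fin n => G.neighborFinset x)).map
        (Equiv.sigmaEquivProd (Fin n) (Fin n)).toEmbedding := by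
      ext ⟨x, y⟩
      simp [P]
    rw [h2, Finset.card_map, Finset.card_sigma]
    rfl
  have h4 : P.card ≤ 2 ^ 2 * zar H c n := by
    refine average P (fun x => {x.1, x.2}) (fun x z => decide (z = x.1))
      (fun x _ => Finset.card_le_two) ?_
    intro l Q hQ hQ'
    refine le_zar ?_
    rintro ⟨f, hf, hZ⟩
    have hmem : ∀ {x y}, c x = true → c y = false → H.Adj x y →
        G.Adj (f x) (f y) ∧ l (f x) = true ∧ l (f y) = false := by
      intro x y hx hy h
      have h1 := hQ (hZ x y hx hy h)
      have h2 := hQ' _ (hZ x y hx hy h)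
      have h3 : G.Adj (f x) (f y) := (Finset.mem_filter.1 h1).2
      refine ⟨h3, ?_, ?_⟩
      · simpa using h2 (f x) (by simp)
      · simpa [h3.ne'] using h2 (f y) (by simp)
    have hl : ∀ x, l (f x) = c x := by
      intro x
      obtain ⟨y, hy⟩ := hnb x
      have hne := hc x y hy
      rcases hx : c x with _ | _ <;> rcases hy' : c y with _ | _
      · rw [hx, hy'] at hne; exact absurd rfl hne
      · exact (hmem hy' hx hy.symm).2.2
      · exact (hmem hx hy' hy).2.1
      · rw [hx, hy'] at hne; exact absurd rfl hne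
    refine hG ⟨⟨⟨f, ?_⟩, ?_⟩⟩
    · intro x y h
      have hne := hc x y h
      rcases hx : c x with _ | _ <;> rcases hy' : c y with _ | _
      · rw [hx, hy'] at hne; exact absurd rfl hne
      · exact (hmem hy' hx h.symm).1.symm
      · exact (hmem hx hy' h).1
      · rw [hx, hy'] at hne; exact absurd rfl hne
    · intro x y he
      exact hf x y (by rw [← hl x, ← hl y]; exact congrArg l he) he
  omega

variable [DecidableEq W]

/-- the vertex `x` on the left is the vertex `v` of a one-sided copy of `H₂` in `Z` -/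
def VC (H₂ : SimpleGraph W) (c₂ : W → Bool) (v : W) {n : ℕ} (Z : Finset (Fin n × Fin n))
    (x : Fin n) : Prop :=
  ∃ g : W → Fin n, (∀ a b, c₂ a = c₂ b → g a = g b → a = b) ∧
    (∀ a b, c₂ a = true → c₂ b = false → H₂.Adj a b → (g a, g b) ∈ Z) ∧ g v = x

/-- the vertex on its side -/
def side (c : Bool) {n : ℕ} (x : Fin n) : Fin n ⊕ Fin n := if c = true then Sum.inl x else Sum.inr x

theorem side_injective {c c' : Bool} {n : ℕ} {x y : Fin n} (h : side c x = side c' y) :
    c = c' ∧ x = y := by
  cases c <;> cases c' <;> simp [side] at h ⊢ <;> exact h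

/-- The other vertices of a copy at `x`. -/
theorem exists_S [Fintype W] {H₁ : SimpleGraph V} {H₂ : SimpleGraph W} {c₁ : V → Bool}
    {c₂ : W → Bool} {u : V} {v : W} (hu : c₁ u = true) (hv : c₂ v = true)
    {n : ℕ} {Z : Finset (Fin n × Fin n)}
    (hZ : ¬ HasCopy (glue H₁ H₂ u v) (gcol c₁ c₂ u v) Z) (x : Fin n) :
    ∃ S : Finset (Fin n ⊕ Fin n), Sum.inl x ∉ S ∧ S.card ≤ Fintype.card W ∧ (VC H₂ c₂ v Z x →
      ∀ f : V → Fin n, (∀ a b, c₁ a = c₁ b → f a = f b → a = b) →
        (∀ a b, c₁ a = true → c₁ b = false → H₁.Adj a b → (f a, f b) ∈ Z) → f u = x →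
          ∃ y, side (c₁ y) (f y) ∈ S) := by
  classical
  by_cases hx : VC H₂ c₂ v Z x
  · obtain ⟨g, hg, hgG, hgv⟩ := hx
    refine ⟨(Finset.univ.image fun a => side (c₂ a) (g a)).erase (Sum.inl x),
      Finset.notMem_erase _ _,
      (Finset.card_erase_le.trans Finset.card_image_le).trans (by rw [Finset.card_univ]), ?_⟩
    intro _ f hf hfG hfu
    by_contra hno
    push Not at hno
    have hdis : ∀ a b, b ≠ v → c₁ a = c₂ b → f a ≠ g b := by
      intro a b hb hc he
      have h1 : side (c₂ b) (g b) ≠ Sum.inl x := by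
        intro h
        have h' : side (c₂ b) (g b) = side true x := h
        obtain ⟨h2, h3⟩ := side_injective h'
        exact hb (hg b v (h2.trans hv.symm) (h3.trans hgv.symm))
      refine hno a ?_
      rw [he, hc]
      exact Finset.mem_erase.2 ⟨h1, Finset.mem_image_of_mem (fun a => side (c₂ a) (g a))
        (Finset.mem_univ b)⟩
    have huv : c₁ u = c₂ v := hu.trans hv.symm
    let F : V ⊕ {x : W // x ≠ v} → Fin n := Sum.elim f fun b => g b.1
    have hF2 : ∀ y, F (second u v y) = g y := by
      intro y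
      by_cases hy : y = v
      · rw [hy, second_v, hgv]; exact hfu
      · rw [second_ne u hy]; rfl
    have hc2 : ∀ y, gcol c₁ c₂ u v (second u v y) = c₂ y := by
      intro y
      rw [gcol_second, if_pos huv]
    apply hZ
    refine ⟨F, ?_, ?_⟩
    · have hr : ∀ b : {x : W // x ≠ v}, gcol c₁ c₂ u v (Sum.inr b) = c₂ b.1 := by
        intro b
        change (if c₁ u = c₂ v then c₂ b.1 else !c₂ b.1) = _
        rw [if_pos huv]
      rintro (a | ⟨a, ha⟩) (b | ⟨b, hb⟩) hc h
      · exact congrArg Sum.inl (hf a b hc h)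
      · rw [hr] at hc
        exact absurd h (hdis a b hb hc)
      · rw [hr] at hc
        exact absurd h.symm (hdis b a ha hc.symm)
      · rw [hr, hr] at hc
        have h2 : a = b := hg a b hc h
        subst h2
        rfl
    · intro a b ha hb hab
      rcases glue_cases hab with ⟨a', b', hab', rfl, rfl⟩ | ⟨a', b', hab', rfl, rfl⟩
      · exact hfG a' b' ha hb hab'
      · rw [hF2, hF2]
        rw [hc2] at ha hb
        exact hgG a' b' ha hb hab'
  · exact ⟨∅, Finset.notMem_empty _, Nat.zero_le _, fun h => absurd h hx⟩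

/-- **Gluing and the one-sided number**, when both vertices are on the left. -/
theorem glue_card_le [Fintype W] {H₁ : SimpleGraph V} {H₂ : SimpleGraph W}
    {c₁ : V → Bool} {c₂ : W → Bool} {u : V} {v : W} (hu : c₁ u = true) (hv : c₂ v = true)
    (hnb₁ : ∀ x, ∃ z, H₁.Adj x z) (hnb₂ : ∀ x, ∃ z, H₂.Adj x z)
    (hp₁ : ∀ x y, H₁.Adj x y → c₁ x ≠ c₁ y) (hp₂ : ∀ x y, H₂.Adj x y → c₂ x ≠ c₂ y)
    {n : ℕ} {Z : Finset (Fin n × Fin n)}
    (hZ : ¬ HasCopy (glue H₁ H₂ u v) (gcol c₁ c₂ u v) Z) :
    Z.card ≤ n * Fintype.card W + 2 ^ (Fintype.card W + 2) * (zar H₁ c₁ n + zar H₂ c₂ n) := by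
  classical
  obtain ⟨m, hm⟩ : ∃ m, m = Fintype.card W := ⟨_, rfl⟩
  rw [← hm]
  choose S hxS hSc hS using exists_S hu hv hZ
  let Z' : Finset (Fin n × Fin n) := Z.filter fun x => Sum.inr x.2 ∉ S x.1
  have hZ' : Z.card ≤ Z'.card + n * m := by
    have h1 : Z ⊆ Z' ∪ (Finset.univ.sigma fun x : Fin n =>
        Finset.univ.filter fun y : Fin n => Sum.inr y ∈ S x).map
        (Equiv.sigmaEquivProd (Fin n) (Fin n)).toEmbedding := by
      rintro ⟨x, y⟩ h
      by_cases hy : Sum.inr y ∈ S x
      · refine Finset.mem_union_right _ ?_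
        rw [Finset.mem_map]
        exact ⟨⟨x, y⟩, by simp [hy], rfl⟩
      · exact Finset.mem_union_left _ (Finset.mem_filter.2 ⟨h, hy⟩)
    refine (Finset.card_le_card h1).trans ((Finset.card_union_le _ _).trans ?_)
    rw [Finset.card_map, Finset.card_sigma]
    refine Nat.add_le_add_left ?_ _
    refine (Finset.sum_le_card_nsmul _ _ m fun x _ => ?_).trans (by simp)
    rw [hm]
    refine le_trans ?_ (hSc x)
    refine Finset.card_le_card_of_injOn (fun y => Sum.inr y) ?_ ?_
    · intro y hy
      have := (Finset.mem_filter.1 hy).2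
      exact this
    · intro y _ y' _ h
      exact Sum.inr_injective h
  have hmain : Z'.card ≤ 2 ^ (m + 2) * (zar H₁ c₁ n + zar H₂ c₂ n) := by
    refine average Z' (fun x => insert (Sum.inl x.1) (insert (Sum.inr x.2) (S x.1)))
      (fun x z => decide (z = Sum.inl x.1 ∨ z = Sum.inr x.2)) ?_ ?_
    · intro x _
      refine (Finset.card_insert_le _ _).trans ?_
      have := Finset.card_insert_le (Sum.inr x.2) (S x.1)
      have := hSc x.1
      omega
    · intro l K hK hK'
      have hmem : ∀ {x y : Fin n}, (x, y) ∈ K → (x, y) ∈ Z ∧ l (Sum.inl x) = true ∧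
          l (Sum.inr y) = true ∧ ∀ s ∈ S x, l s = false := by
        intro x y h
        have h2 := hK' _ h
        obtain ⟨h3, h4⟩ := Finset.mem_filter.1 (hK h)
        refine ⟨h3, ?_, ?_, ?_⟩
        · simpa using h2 (Sum.inl x) (Finset.mem_insert_self _ _)
        · simpa using h2 (Sum.inr y) (Finset.mem_insert_of_mem (Finset.mem_insert_self _ _))
        · intro s hs
          have h5 := h2 s (Finset.mem_insert_of_mem (Finset.mem_insert_of_mem hs))
          have h6 : s ≠ Sum.inl x := fun h => hxS x (h ▸ hs)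
          have h7 : s ≠ Sum.inr y := fun h => h4 (h ▸ hs)
          rw [h5]
          simp [h6, h7]
      have hA : ¬ HasCopy H₁ c₁ (K.filter fun x => VC H₂ c₂ v Z x.1) := by
        rintro ⟨f, hf, hfK⟩
        have hmem' : ∀ {x y}, c₁ x = true → c₁ y = false → H₁.Adj x y →
            (f x, f y) ∈ K ∧ VC H₂ c₂ v Z (f x) :=
          fun hx hy h => Finset.mem_filter.1 (hfK _ _ hx hy h)
        have hl : ∀ x, l (side (c₁ x) (f x)) = true := by
          intro x
          obtain ⟨z, hz⟩ := hnb₁ x
          have hne := hp₁ x z hz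
          rcases hx : c₁ x with _ | _ <;> rcases hz' : c₁ z with _ | _
          · rw [hx, hz'] at hne; exact absurd rfl hne
          · exact (hmem (hmem' hz' hx hz.symm).1).2.2.1
          · exact (hmem (hmem' hx hz' hz).1).2.1
          · rw [hx, hz'] at hne; exact absurd rfl hne
        obtain ⟨z, hz⟩ := hnb₁ u
        have hcz : c₁ z = false := by
          have := hp₁ u z hz; rw [hu] at this; simpa using this.symm
        obtain ⟨h1, h2⟩ := hmem' hu hcz hz
        obtain ⟨y, hy⟩ := hS (f u) h2 f hf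
          (fun a b ha hb hab => (hmem (hmem' ha hb hab).1).1) rfl
        have h4 := (hmem h1).2.2.2 _ hy
        rw [hl y] at h4
        exact absurd h4 (by decide)
      have hB : ¬ HasCopy H₂ c₂ (K.filter fun x => ¬ VC H₂ c₂ v Z x.1) := by
        rintro ⟨f, hf, hfK⟩
        have hmem' : ∀ {x y}, c₂ x = true → c₂ y = false → H₂.Adj x y →
            (f x, f y) ∈ K ∧ ¬ VC H₂ c₂ v Z (f x) :=
          fun hx hy h => Finset.mem_filter.1 (hfK _ _ hx hy h)
        obtain ⟨z, hz⟩ := hnb₂ v
        have hcz : c₂ z = false := by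
          have := hp₂ v z hz; rw [hv] at this; simpa using this.symm
        exact (hmem' hv hcz hz).2 ⟨f, hf, fun a b ha hb hab => (hmem (hmem' ha hb hab).1).1, rfl⟩
      have h1 := le_zar hA
      have h2 := le_zar hB
      have h3 := Finset.card_filter_add_card_filter_not (s := K) (fun x => VC H₂ c₂ v Z x.1)
      omega
  omega

end

end Pool.Glue28
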