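import Pool.Agent.H28.Glue.Basic

/-!
# Two copies of a bipartite graph glued at a vertex: the one-sided number and the extremal number
-/

set_option autoImplicit false

namespace Pool.Glue28

open Finset SimpleGraph

variable {V : Type}

/-- the pairs `(p, q)` in `Z` such that `(q + a, p + b)` is in `Z` too -/
def inter {n : ℕ} [NeZero n] (Z : Finset (Fin n × Fin n)) (a b : Fin n) : Finset (Fin n × Fin n) :=
  Z.filter fun x => (x.2 + a, x.1 + b) ∈ Z

theorem sum_inter {n : ℕ} [NeZero n] (Z : Finset (Fin n × Fin n)) :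
    ∑ x : Fin n × Fin n, (inter Z x.1 x.2).card = Z.card * Z.card := by
  have h1 : ∀ x : Fin n × Fin n, (inter Z x.1 x.2).card =
      ∑ y ∈ Z, if (y.2 + x.1, y.1 + x.2) ∈ Z then 1 else 0 := by
    intro x
    rw [inter, Finset.card_filter]
  rw [Finset.sum_congr rfl fun x _ => h1 x, Finset.sum_comm]
  have h2 : ∀ y ∈ Z, (∑ x : Fin n × Fin n, if (y.2 + x.1, y.1 + x.2) ∈ Z then 1 else 0) =
      Z.card := by
    intro y _
    rw [← Finset.card_filter]
    refine Finset.card_bij (fun x _ => (y.2 + x.1, y.1 + x.2)) ?_ ?_ ?_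
    · intro x hx
      exact (Finset.mem_filter.1 hx).2
    · rintro ⟨a, b⟩ _ ⟨a', b'⟩ _ h
      rw [Prod.mk.injEq] at h
      have e1 : a = a' := add_left_cancel h.1
      have e2 : b = b' := add_left_cancel h.2
      rw [e1, e2]
    · rintro ⟨a, b⟩ h
      refine ⟨(a - y.2, b - y.1), ?_, ?_⟩
      · rw [Finset.mem_filter]
        refine ⟨Finset.mem_univ _, ?_⟩
        simpa using h
      · simp
  rw [Finset.sum_congr rfl h2, Finset.sum_const, smul_eq_mul]

/-- the bipartite graph of the intersection is `H`-free -/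
theorem inter_free {H : SimpleGraph V} (hH : H.Connected) {c : V → Bool}
    (hc : ∀ x y, H.Adj x y → c x ≠ c y) {n : ℕ} [NeZero n] {Z : Finset (Fin n × Fin n)}
    (hZ : ¬ HasCopy H c Z) (a b : Fin n) : H.Free (bip (inter Z a b)) := by
  rintro ⟨F⟩
  obtain ⟨w⟩ := hH.nonempty
  have hs : ∀ x y, H.Adj x y → (F x).isLeft ≠ (F y).isLeft := fun x y h =>
    bip_side (F.toHom.map_adj h)
  have hsub : ∀ {x : Fin n × Fin n}, x ∈ inter Z a b → x ∈ Z ∧ (x.2 + a, x.1 + b) ∈ Z :=
    fun h => Finset.mem_filter.1 h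
  by_cases hw : (F w).isLeft = c w
  · have hside := col_eq hH hc hs hw
    obtain ⟨f, hf, hf'⟩ := hasCopy_of F F.injective (fun x y h => F.toHom.map_adj h) hside
    exact hZ ⟨f, hf, fun x y hx hy h => (hsub (hf' x y hx hy h)).1⟩
  · have hc' : ∀ x y, H.Adj x y → (!c x) ≠ (!c y) := fun x y h h' => hc x y h (by simpa using h')
    have hw' : (F w).isLeft = !c w := by
      revert hw
      cases (F w).isLeft <;> cases c w <;> simp
    have hside := col_eq hH hc' hs hw'
    obtain ⟨f, hf, hf'⟩ := hasCopy_of (c := fun x => !c x) F F.injective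
      (fun x y h => F.toHom.map_adj h) hside
    refine hZ ⟨fun x => if c x = true then f x + a else f x + b, ?_, ?_⟩
    · intro x y hxy he
      refine hf x y (by simpa using hxy) ?_
      rcases hx : c x with _ | _
      · have hy : c y = false := by rw [← hxy, hx]
        simpa [hx, hy] using he
      · have hy : c y = true := by rw [← hxy, hx]
        simpa [hx, hy] using he
    · intro x y hx hy h
      have h1 := (hsub (hf' y x (by simpa using hy) (by simpa using hx) h.symm)).2
      simpa [hx, hy] using h1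

open Classical in
theorem zar_sq {H : SimpleGraph V} (hH : H.Connected) {c : V → Bool}
    (hc : ∀ x y, H.Adj x y → c x ≠ c y) {n : ℕ} (hn : n ≠ 0) {Z : Finset (Fin n × Fin n)}
    (hZ : ¬ HasCopy H c Z) : Z.card ^ 2 ≤ n ^ 2 * extremalNumber (2 * n) H := by
  have : NeZero n := ⟨hn⟩
  have h1 : ∀ x ∈ (Finset.univ : Finset (Fin n × Fin n)), (inter Z x.1 x.2).card ≤
      extremalNumber (2 * n) H := by
    intro x _
    have h := card_edgeFinset_le_extremalNumber (inter_free hH hc hZ x.1 x.2)
    rw [bip_card, Fintype.card_sum, Fintype.card_fin, ← two_mul] at h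
    exact h
  have h2 := Finset.sum_le_card_nsmul _ _ _ h1
  rw [sum_inter, Finset.card_univ, Fintype.card_prod, Fintype.card_fin, smul_eq_mul] at h2
  calc Z.card ^ 2 = Z.card * Z.card := sq _
    _ ≤ n * n * extremalNumber (2 * n) H := h2
    _ = n ^ 2 * extremalNumber (2 * n) H := by ring

/-- doubling the number of vertices -/
theorem ex_double {W : Type*} (H : SimpleGraph W) {n : ℕ} (hn : 2 ≤ n) :
    extremalNumber (2 * n) H ≤ 6 * extremalNumber n H := by
  have h := antitoneOn_extremalNumber_div_choose_two H (Set.mem_Ici.2 hn)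
    (Set.mem_Ici.2 (by omega : 2 ≤ 2 * n)) (by omega : n ≤ 2 * n)
  have hn' : (2 : ℝ) ≤ n := by exact_mod_cast hn
  have h1 : (0 : ℝ) < n.choose 2 := by exact_mod_cast Nat.choose_pos hn
  have h2 : (0 : ℝ) < (2 * n).choose 2 := by exact_mod_cast Nat.choose_pos (by omega : 2 ≤ 2 * n)
  have h3 : ((2 * n).choose 2 : ℝ) ≤ 6 * (n.choose 2 : ℝ) := by
    rw [Nat.cast_choose_two, Nat.cast_choose_two]
    push_cast
    nlinarith
  have h4 : (extremalNumber (2 * n) H : ℝ) / (2 * n).choose 2 ≤
      (extremalNumber n H : ℝ) / n.choose 2 := h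
  rw [div_le_div_iff₀ h2 h1] at h4
  have h5 : (0 : ℝ) ≤ (extremalNumber n H : ℝ) := Nat.cast_nonneg _
  have h6 : (extremalNumber (2 * n) H : ℝ) * n.choose 2 ≤
      (6 * (extremalNumber n H : ℝ)) * n.choose 2 := by
    refine h4.trans ?_
    nlinarith
  have h7 := le_of_mul_le_mul_right h6 h1
  exact_mod_cast h7

end Pool.Glue28
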