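import Pool.Agent.H28.Glue.Core
import Pool.Agent.H28.Glue.Sq

/-!
# Bipartite graphs glued at a vertex: the comparison of the extremal numbers
-/

set_option autoImplicit false

namespace Pool.Glue28

open Finset SimpleGraph

namespace BipGraph

/-- the one-sided number -/
noncomputable def z (X : BipGraph) (n : ℕ) : ℕ := zar X.graph X.col n

theorem exists_ne (X : BipGraph) (x : X.V) : ∃ y, x ≠ y := by
  by_contra hall
  push Not at hall
  have h1 : Fintype.card X.V ≤ 1 := Fintype.card_le_one_iff.2 fun a b => by rw [← hall a, ← hall b]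
  have h3 := X.two
  omega

theorem nb (X : BipGraph) (x : X.V) : ∃ y, X.graph.Adj x y := by
  obtain ⟨y, hy⟩ := X.exists_ne x
  exact exists_nb X.conn hy

theorem edge (X : BipGraph) : ∃ x y, X.graph.Adj x y := by
  obtain ⟨x⟩ := X.conn.nonempty
  exact ⟨x, X.nb x⟩

theorem z_col (X : BipGraph) {c : X.V → Bool} (hc : ∀ x y, X.graph.Adj x y → c x ≠ c y) (n : ℕ) :
    zar X.graph c n = X.z n := zar_col X.conn X.edge X.proper hc n

theorem not_proper (X : BipGraph) : ∀ x y, X.graph.Adj x y → (!X.col x) ≠ (!X.col y) :=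
  fun x y h h' => X.proper x y h (by simpa using h')

/-- the colouring with a given value at a vertex -/
theorem exists_col (X : BipGraph) (u : X.V) (b : Bool) : ∃ c : X.V → Bool,
    (∀ x y, X.graph.Adj x y → c x ≠ c y) ∧ c u = b := by
  by_cases h : X.col u = b
  · exact ⟨X.col, X.proper, h⟩
  · refine ⟨fun x => !X.col x, X.not_proper, ?_⟩
    change (!X.col u) = b
    revert h
    cases X.col u <;> cases b <;> simp

theorem n_le_z (X : BipGraph) (h3 : 3 ≤ X.order) (n : ℕ) : n ≤ X.z n :=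
  n_le_zar X.conn X.proper h3 n

theorem ex_le_z (X : BipGraph) (n : ℕ) : X.ex n ≤ 2 * X.z n := ex_le_zar X.nb X.proper n

theorem n_le_ex (X : BipGraph) (h3 : 3 ≤ X.order) {n : ℕ} (hn : 2 ≤ n) : n ≤ 6 * X.ex n := by
  refine le_trans ?_ (ex_double X.graph hn)
  have : NeZero n := ⟨by omega⟩
  have hfree : X.graph.Free (bip ((Finset.univ : Finset (Fin n)).map ⟨fun i => (i, i), fun i j h =>
      (Prod.ext_iff.1 h).1⟩)) := by
    rintro ⟨F⟩
    have hs : ∀ x y, X.graph.Adj x y → (F x).isLeft ≠ (F y).isLeft := fun x y h =>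
      bip_side (F.toHom.map_adj h)
    exact diag_free X.conn hs h3 n
      (hasCopy_of F F.injective (fun x y h => F.toHom.map_adj h) fun x => rfl)
  classical
  have h := card_edgeFinset_le_extremalNumber hfree
  rw [bip_card, Fintype.card_sum, Fintype.card_fin, ← two_mul, Finset.card_map, Finset.card_univ,
    Fintype.card_fin] at h
  exact h

theorem z_sq (X : BipGraph) {n : ℕ} (hn : 2 ≤ n) : X.z n ^ 2 ≤ 6 * n ^ 2 * X.ex n := by
  classical
  have hne : {k | ∃ Z : Finset (Fin n × Fin n), ¬ HasCopy X.graph X.col Z ∧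
      Z.card = k}.Nonempty := ⟨_, _, empty_free X.edge X.proper n, rfl⟩
  obtain ⟨Z, hZ, hZc⟩ := Nat.sSup_mem hne (zar_bdd X.graph X.col n)
  have hZc : Z.card = X.z n := hZc
  have h1 := zar_sq X.conn X.proper (by omega : n ≠ 0) hZ
  have h2 := ex_double X.graph hn
  rw [hZc] at h1
  calc X.z n ^ 2 ≤ n ^ 2 * extremalNumber (2 * n) X.graph := h1
    _ ≤ n ^ 2 * (6 * extremalNumber n X.graph) := Nat.mul_le_mul_left _ h2
    _ = 6 * n ^ 2 * X.ex n := by rw [ex]; ring

theorem z_le_ex_glue (X : BipGraph) {u v : X.V} (huv : X.col u ≠ X.col v) {n : ℕ} (hn : 2 ≤ n) :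
    X.z n ≤ 6 * (X.glue X u v).ex n := by
  have key : ∀ c : X.V → Bool, (∀ x y, X.graph.Adj x y → c x ≠ c y) → c u = true → c v = false →
      zar X.graph c n ≤ 6 * (X.glue X u v).ex n := by
    intro c hc hu hv
    refine le_trans ?_ (ex_double (X.glue X u v).graph hn)
    refine zar_le ⟨_, empty_free X.edge hc n⟩ fun Z hZ => ?_
    have hfree : (Glue28.glue X.graph X.graph u v).Free (bip Z) := by
      rintro ⟨F⟩
      have hs1 : ∀ x y, X.graph.Adj x y → (F (Sum.inl x)).isLeft ≠ (F (Sum.inl y)).isLeft :=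
        fun x y h => bip_side (F.toHom.map_adj (glue_inl h))
      have hs2 : ∀ x y, X.graph.Adj x y →
          (F (second u v x)).isLeft ≠ (F (second u v y)).isLeft :=
        fun x y h => bip_side (F.toHom.map_adj (glue_second h))
      by_cases hl : (F (Sum.inl u)).isLeft = true
      · refine hZ (hasCopy_of (fun x => F (Sum.inl x)) (F.injective.comp Sum.inl_injective)
          (fun x y h => F.toHom.map_adj (glue_inl h)) (col_eq X.conn hc hs1 (w := u) ?_))
        rw [hl, hu]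
      · refine hZ (hasCopy_of (fun x => F (second u v x))
          (F.injective.comp (second_injective u v))
          (fun x y h => F.toHom.map_adj (glue_second h)) (col_eq X.conn hc hs2 (w := v) ?_))
        rw [second_v, hv]
        simpa using hl
    classical
    have h := card_edgeFinset_le_extremalNumber hfree
    rw [bip_card, Fintype.card_sum, Fintype.card_fin, ← two_mul] at h
    exact h
  obtain ⟨c, hc, hcu⟩ := X.exists_col u true
  have hcv : c v = false := by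
    have h : c v ≠ c u := by
      intro h
      by_cases h1 : c u = X.col u
      · have h2 := col_eq X.conn X.proper hc h1 v
        exact huv (by rw [← h1, ← h2, h])
      · have h3 : c u = !X.col u := by
          revert h1
          cases c u <;> cases X.col u <;> simp
        have h2 := col_eq X.conn X.not_proper hc h3 v
        rw [h2, h3] at h
        exact huv (by simpa using h.symm)
    rw [hcu] at h
    simpa using h
  rw [← X.z_col hc n]
  exact key c hc hcu hcv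

/-- the constant -/
def K (Y : BipGraph) : ℕ := Y.order + 2 ^ (Y.order + 2)

theorem z_glue_le (X Y : BipGraph) (u : X.V) (v : Y.V) (n : ℕ) :
    (X.glue Y u v).z n ≤ Y.K * (X.z n + Y.z n + n) := by
  obtain ⟨c₁, h₁, hu⟩ := X.exists_col u true
  obtain ⟨c₂, h₂, hv⟩ := Y.exists_col v true
  have h : (X.glue Y u v).z n ≤ n * Y.order + 2 ^ (Y.order + 2) * (X.z n + Y.z n) := by
    rw [← (X.glue Y u v).z_col (c := gcol c₁ c₂ u v) (gcol_proper h₁ h₂) n]
    refine zar_le ⟨_, empty_free (X.glue Y u v).edge (gcol_proper h₁ h₂) n⟩ fun Z hZ => ?_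
    have h := glue_card_le hu hv X.nb Y.nb h₁ h₂ hZ
    rwa [X.z_col h₁, Y.z_col h₂] at h
  refine h.trans ?_
  rw [K]
  calc n * Y.order + 2 ^ (Y.order + 2) * (X.z n + Y.z n)
      ≤ n * Y.order + 2 ^ (Y.order + 2) * (X.z n + Y.z n) +
        (Y.order * (X.z n + Y.z n) + 2 ^ (Y.order + 2) * n) := Nat.le_add_right _ _
    _ = (Y.order + 2 ^ (Y.order + 2)) * (X.z n + Y.z n + n) := by ring

/-- the one-sided number and containment -/
theorem z_mono {X Y : BipGraph} (h : Y.graph ⊑ X.graph) (n : ℕ) : Y.z n ≤ X.z n := by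
  obtain ⟨F⟩ := h
  have hc : ∀ x y, Y.graph.Adj x y → X.col (F x) ≠ X.col (F y) := fun x y h =>
    X.proper _ _ (F.toHom.map_adj h)
  rw [← Y.z_col hc n]
  refine zar_le ⟨_, empty_free Y.edge hc n⟩ fun Z hZ => le_zar ?_
  rintro ⟨f, hf, hfZ⟩
  refine hZ ⟨fun x => f (F x), ?_, ?_⟩
  · intro x y hxy he
    exact F.injective (hf _ _ hxy he)
  · intro x y hx hy hadj
    exact hfZ _ _ hx hy (F.toHom.map_adj hadj)

theorem ex_mono {X Y : BipGraph} (h : Y.graph ⊑ X.graph) (n : ℕ) : Y.ex n ≤ X.ex n :=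
  h.extremalNumber_le

theorem ex_le_glue_left (X Y : BipGraph) (u : X.V) (v : Y.V) (n : ℕ) :
    X.ex n ≤ (X.glue Y u v).ex n := ex_mono left_contained n

theorem ex_le_glue_right (X Y : BipGraph) (u : X.V) (v : Y.V) (n : ℕ) :
    Y.ex n ≤ (X.glue Y u v).ex n := ex_mono right_contained n

theorem ex_glue_le (X Y : BipGraph) (u : X.V) (v : Y.V) (n : ℕ) :
    (X.glue Y u v).ex n ≤ 2 * Y.K * (X.z n + Y.z n + n) := by
  refine (ex_le_z _ n).trans ?_
  rw [mul_assoc]
  exact Nat.mul_le_mul_left _ (z_glue_le X Y u v n)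

theorem order_glue (X Y : BipGraph) (u : X.V) (v : Y.V) : 3 ≤ (X.glue Y u v).order := by
  have h1 := X.two
  obtain ⟨y, hy⟩ := Y.exists_ne v
  have h2 : 0 < Fintype.card {x : Y.V // x ≠ v} := Fintype.card_pos_iff.2 ⟨⟨y, hy.symm⟩⟩
  have h3 : (X.glue Y u v).order = Fintype.card X.V + Fintype.card {x : Y.V // x ≠ v} :=
    Fintype.card_sum
  omega

end BipGraph

open BipGraph

/-- the one-sided number is not larger -/
def Good (X : BipGraph) : Prop := ∃ C : ℕ, ∀ n, 2 ≤ n → X.z n ≤ C * X.ex n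

/-- the same up to a linear term -/
def GoodP (X : BipGraph) : Prop := ∃ C : ℕ, ∀ n, 2 ≤ n → X.z n ≤ C * (X.ex n + n)

theorem Good.goodP {X : BipGraph} (h : Good X) : GoodP X := by
  obtain ⟨C, hC⟩ := h
  exact ⟨C, fun n hn => (hC n hn).trans (Nat.mul_le_mul_left _ (Nat.le_add_right _ _))⟩

theorem GoodP.good {X : BipGraph} (h : GoodP X) (h3 : 3 ≤ X.order) : Good X := by
  obtain ⟨C, hC⟩ := h
  refine ⟨7 * C, fun n hn => (hC n hn).trans ?_⟩
  calc C * (X.ex n + n) ≤ C * (X.ex n + 6 * X.ex n) :=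
        Nat.mul_le_mul_left _ (Nat.add_le_add_left (X.n_le_ex h3 hn) _)
    _ = 7 * C * X.ex n := by ring

theorem good_of_pair {X : BipGraph} {u v : X.V} (huv : X.col u ≠ X.col v)
    (h : SameOrder (X.glue X u v).ex X.ex) : Good X := by
  obtain ⟨C, hC⟩ := h
  refine ⟨6 * C, fun n hn => ?_⟩
  calc X.z n ≤ 6 * (X.glue X u v).ex n := X.z_le_ex_glue huv hn
    _ ≤ 6 * (C * X.ex n) := Nat.mul_le_mul_left _ (hC n hn).1
    _ = 6 * C * X.ex n := by ring

theorem good_of_q1 {X : BipGraph} (h : Q1 X) : Good X := by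
  obtain ⟨x, y, hy⟩ := X.edge
  exact good_of_pair (X.proper x y hy) (h x y (X.proper x y hy))

theorem q1_of_good {X : BipGraph} (h3 : 3 ≤ X.order) (h : Good X) (u v : X.V) :
    SameOrder (X.glue X u v).ex X.ex := by
  obtain ⟨C, hC⟩ := h
  refine ⟨6 * X.K * C + 1, fun n hn => ⟨?_, ?_⟩⟩
  · calc (X.glue X u v).ex n ≤ 2 * X.K * (X.z n + X.z n + n) := ex_glue_le X X u v n
      _ ≤ 2 * X.K * (X.z n + X.z n + X.z n) :=
        Nat.mul_le_mul_left _ (Nat.add_le_add_left (X.n_le_z h3 n) _)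
      _ = 6 * X.K * X.z n := by ring
      _ ≤ 6 * X.K * (C * X.ex n) := Nat.mul_le_mul_left _ (hC n hn)
      _ = 6 * X.K * C * X.ex n := by ring
      _ ≤ (6 * X.K * C + 1) * X.ex n := Nat.mul_le_mul_right _ (Nat.le_succ _)
  · exact (ex_le_glue_left X X u v n).trans (Nat.le_mul_of_pos_left _ (Nat.succ_pos _))

/-- Two copies of an arbitrary graph glued at vertices of different sides. -/
theorem good_glue (X : BipGraph) {u v : X.V} (huv : X.col u ≠ X.col v) :
    Good (X.glue X u v) := by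
  refine ⟨18 * X.K, fun n hn => ?_⟩
  have h1 := X.z_le_ex_glue huv hn
  have h2 := (X.glue X u v).n_le_ex (order_glue X X u v) hn
  calc (X.glue X u v).z n ≤ X.K * (X.z n + X.z n + n) := z_glue_le X X u v n
    _ ≤ X.K * (6 * (X.glue X u v).ex n + 6 * (X.glue X u v).ex n + 6 * (X.glue X u v).ex n) :=
      Nat.mul_le_mul_left _ (by omega)
    _ = 18 * X.K * (X.glue X u v).ex n := by ring

theorem z_bound {X Y : BipGraph} (hX : GoodP X) (hY : GoodP Y ∨ Y.graph ⊑ X.graph) :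
    ∃ C : ℕ, ∀ n, 2 ≤ n → X.z n + Y.z n ≤ C * (X.ex n + Y.ex n + n) := by
  obtain ⟨C, hC⟩ := hX
  rcases hY with ⟨D, hD⟩ | hY
  · refine ⟨C + D, fun n hn => ?_⟩
    calc X.z n + Y.z n ≤ C * (X.ex n + n) + D * (Y.ex n + n) :=
          Nat.add_le_add (hC n hn) (hD n hn)
      _ ≤ C * (X.ex n + n) + D * (Y.ex n + n) + (C * Y.ex n + D * X.ex n) :=
        Nat.le_add_right _ _
      _ = (C + D) * (X.ex n + Y.ex n + n) := by ring
  · refine ⟨2 * C, fun n hn => ?_⟩
    calc X.z n + Y.z n ≤ X.z n + X.z n := Nat.add_le_add_left (z_mono hY n) _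
      _ ≤ C * (X.ex n + n) + C * (X.ex n + n) := Nat.add_le_add (hC n hn) (hC n hn)
      _ ≤ C * (X.ex n + n) + C * (X.ex n + n) + 2 * C * Y.ex n := Nat.le_add_right _ _
      _ = 2 * C * (X.ex n + Y.ex n + n) := by ring

theorem goodP_glue {X Y : BipGraph} (hX : GoodP X) (hY : GoodP Y ∨ Y.graph ⊑ X.graph) (u : X.V)
    (v : Y.V) : GoodP (X.glue Y u v) := by
  obtain ⟨C, hC⟩ := z_bound hX hY
  refine ⟨Y.K * (2 * C + 1), fun n hn => ?_⟩
  have h1 := ex_le_glue_left X Y u v n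
  have h2 := ex_le_glue_right X Y u v n
  calc (X.glue Y u v).z n ≤ Y.K * (X.z n + Y.z n + n) := z_glue_le X Y u v n
    _ ≤ Y.K * (C * (X.ex n + Y.ex n + n) + n) :=
      Nat.mul_le_mul_left _ (Nat.add_le_add_right (hC n hn) _)
    _ ≤ Y.K * (C * ((X.glue Y u v).ex n + (X.glue Y u v).ex n + n) + n) :=
      Nat.mul_le_mul_left _ (Nat.add_le_add_right (Nat.mul_le_mul_left _
        (Nat.add_le_add_right (Nat.add_le_add h1 h2) _)) _)
    _ ≤ Y.K * (C * ((X.glue Y u v).ex n + (X.glue Y u v).ex n + n) + n) +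
        Y.K * (C * n + (X.glue Y u v).ex n) := Nat.le_add_right _ _
    _ = Y.K * (2 * C + 1) * ((X.glue Y u v).ex n + n) := by ring

theorem same_sum {X Y : BipGraph} (h3 : 3 ≤ X.order) (hX : GoodP X)
    (hY : GoodP Y ∨ Y.graph ⊑ X.graph) (u : X.V) (v : Y.V) :
    SameOrder (X.glue Y u v).ex fun n => X.ex n + Y.ex n := by
  obtain ⟨C, hC⟩ := z_bound hX hY
  refine ⟨2 * Y.K * (7 * C + 6) + 2, fun n hn => ⟨?_, ?_⟩⟩
  · have h1 := X.n_le_ex h3 hn
    calc (X.glue Y u v).ex n ≤ 2 * Y.K * (X.z n + Y.z n + n) := ex_glue_le X Y u v n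
      _ ≤ 2 * Y.K * (C * (X.ex n + Y.ex n + n) + n) :=
        Nat.mul_le_mul_left _ (Nat.add_le_add_right (hC n hn) _)
      _ ≤ 2 * Y.K * (C * (X.ex n + Y.ex n + 6 * (X.ex n + Y.ex n)) + 6 * (X.ex n + Y.ex n)) :=
        Nat.mul_le_mul_left _ (Nat.add_le_add (Nat.mul_le_mul_left _ (by omega)) (by omega))
      _ = 2 * Y.K * (7 * C + 6) * (X.ex n + Y.ex n) := by ring
      _ ≤ (2 * Y.K * (7 * C + 6) + 2) * (X.ex n + Y.ex n) :=
        Nat.mul_le_mul_right _ (Nat.le_add_right _ _)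
  · calc X.ex n + Y.ex n ≤ (X.glue Y u v).ex n + (X.glue Y u v).ex n :=
        Nat.add_le_add (ex_le_glue_left X Y u v n) (ex_le_glue_right X Y u v n)
      _ = 2 * (X.glue Y u v).ex n := by ring
      _ ≤ (2 * Y.K * (7 * C + 6) + 2) * (X.glue Y u v).ex n :=
        Nat.mul_le_mul_right _ (Nat.le_add_left _ _)

theorem ex_glue_sq (X Y : BipGraph) (h3 : 3 ≤ X.order) (u : X.V) (v : Y.V) :
    ∃ C : ℕ, ∀ n, 2 ≤ n → (X.glue Y u v).ex n ^ 2 ≤ C * n ^ 2 * (X.ex n + Y.ex n) := by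
  refine ⟨(2 * Y.K) ^ 2 * 8 * 6, fun n hn => ?_⟩
  have h0 := X.n_le_z h3 n
  have h1 : (X.z n + Y.z n + n) ^ 2 ≤ 8 * (X.z n ^ 2 + Y.z n ^ 2) := by
    have : (X.z n + Y.z n + n) ^ 2 ≤ (2 * (X.z n + Y.z n)) ^ 2 :=
      Nat.pow_le_pow_left (by omega) 2
    refine this.trans ?_
    zify
    nlinarith [sq_nonneg ((X.z n : ℤ) - (Y.z n : ℤ))]
  calc (X.glue Y u v).ex n ^ 2 ≤ (2 * Y.K * (X.z n + Y.z n + n)) ^ 2 :=
        Nat.pow_le_pow_left (ex_glue_le X Y u v n) 2
    _ = (2 * Y.K) ^ 2 * (X.z n + Y.z n + n) ^ 2 := by ring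
    _ ≤ (2 * Y.K) ^ 2 * (8 * (X.z n ^ 2 + Y.z n ^ 2)) := Nat.mul_le_mul_left _ h1
    _ ≤ (2 * Y.K) ^ 2 * (8 * (6 * n ^ 2 * X.ex n + 6 * n ^ 2 * Y.ex n)) :=
      Nat.mul_le_mul_left _ (Nat.mul_le_mul_left _ (Nat.add_le_add (X.z_sq hn) (Y.z_sq hn)))
    _ = (2 * Y.K) ^ 2 * 8 * 6 * n ^ 2 * (X.ex n + Y.ex n) := by ring

theorem same_z (X : BipGraph) (h3 : 3 ≤ X.order) {u v : X.V} (huv : X.col u ≠ X.col v) :
    SameOrder (X.glue X u v).ex X.z := by
  refine ⟨6 * X.K + 6, fun n hn => ⟨?_, ?_⟩⟩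
  · have h0 := X.n_le_z h3 n
    calc (X.glue X u v).ex n ≤ 2 * X.K * (X.z n + X.z n + n) := ex_glue_le X X u v n
      _ ≤ 2 * X.K * (X.z n + X.z n + X.z n) := Nat.mul_le_mul_left _ (by omega)
      _ = 6 * X.K * X.z n := by ring
      _ ≤ (6 * X.K + 6) * X.z n := Nat.mul_le_mul_right _ (Nat.le_add_right _ _)
  · exact (X.z_le_ex_glue huv hn).trans (Nat.mul_le_mul_right _ (Nat.le_add_left _ _))

/-- a graph with two vertices -/
theorem z_two {X : BipGraph} (h : X.order = 2) (n : ℕ) : X.z n ≤ 0 := by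
  refine zar_le ⟨_, empty_free X.edge X.proper n⟩ fun Z hZ => ?_
  rw [Nat.le_zero, Finset.card_eq_zero, Finset.eq_empty_iff_forall_notMem]
  rintro ⟨p, q⟩ hpq
  apply hZ
  obtain ⟨x, y, hxy⟩ := X.edge
  have hall : ∀ w, w = x ∨ w = y := by
    intro w
    by_contra hw
    push Not at hw
    have h3 : ({w, x, y} : Finset X.V).card = 3 := by
      rw [Finset.card_insert_of_notMem, Finset.card_pair hxy.ne]
      simp [hw.1, hw.2]
    have h4 := Finset.card_le_univ ({w, x, y} : Finset X.V)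
    rw [h3] at h4
    have h5 : Fintype.card X.V = 2 := h
    omega
  have hne := X.proper x y hxy
  refine ⟨fun w => if X.col w = true then p else q, ?_, ?_⟩
  · intro a b hab _
    rcases hall a with rfl | rfl <;> rcases hall b with rfl | rfl
    · rfl
    · exact absurd hab hne
    · exact absurd hab.symm hne
    · rfl
  · intro a b ha hb _
    simpa [ha, hb] using hpq

theorem goodP_two {X : BipGraph} (h : X.order = 2) : GoodP X :=
  ⟨0, fun n _ => by rw [zero_mul]; exact z_two h n⟩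

theorem order_of_pair {X : BipGraph} {x y : X.V} (h : SameOrder (X.glue X x y).ex X.ex) :
    3 ≤ X.order := by
  by_contra h3
  have h2 : X.order = 2 := by
    have := X.two
    have : X.order = Fintype.card X.V := rfl
    omega
  obtain ⟨C, hC⟩ := h
  have h4 := (hC 2 le_rfl).1
  have h5 := X.ex_le_z 2
  have h6 := z_two h2 2
  have h7 : X.ex 2 = 0 := by omega
  have h8 := (X.glue X x y).n_le_ex (order_glue X X x y) (le_refl 2)
  rw [h7, mul_zero] at h4
  omega

end Pool.Glue28
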