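import Pool.Agent.H28.Glue.Final

/-!
# The union of two graphs which meet in a vertex or in an edge
-/

set_option autoImplicit false

namespace Pool.Glue28

open Finset SimpleGraph

/-- The random choice of the vertices. -/
theorem label_lemma {n m : ℕ} {Z : Finset (Fin n × Fin n)} (VC : Fin n × Fin n → Prop)
    (S : Fin n × Fin n → Finset (Fin n ⊕ Fin n)) (hm : ∀ p, (S p).card ≤ m)
    (hx : ∀ p, Sum.inl p.1 ∉ S p) {N M₁ M₂ : ℕ}
    (hD : ∀ D ⊆ Z, (∀ p ∈ D, Sum.inr p.2 ∈ S p) → D.card ≤ N)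
    (hA : ∀ (K : Finset (Fin n × Fin n)) (l : Fin n ⊕ Fin n → Bool), K ⊆ Z → (∀ p ∈ K, VC p) →
      (∀ p ∈ K, l (Sum.inl p.1) = true ∧ l (Sum.inr p.2) = true ∧ ∀ s ∈ S p, l s = false) →
        K.card ≤ M₁)
    (hB : ∀ K ⊆ Z, (∀ p ∈ K, ¬ VC p) → K.card ≤ M₂) :
    Z.card ≤ N + 2 ^ (m + 2) * (M₁ + M₂) := by
  classical
  let Z' : Finset (Fin n × Fin n) := Z.filter fun p => ¬ Sum.inr p.2 ∈ S p
  have hZ' : Z.card ≤ N + Z'.card := by
    rw [← Finset.card_filter_add_card_filter_not (s := Z) (fun p => Sum.inr p.2 ∈ S p)]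
    exact Nat.add_le_add_right (hD _ (Finset.filter_subset _ _)
      fun p hp => (Finset.mem_filter.1 hp).2) _
  refine hZ'.trans (Nat.add_le_add_left ?_ _)
  refine average Z' (fun p => insert (Sum.inl p.1) (insert (Sum.inr p.2) (S p)))
    (fun p z => decide (z = Sum.inl p.1 ∨ z = Sum.inr p.2)) ?_ ?_
  · intro p _
    refine (Finset.card_insert_le _ _).trans ?_
    have := Finset.card_insert_le (Sum.inr p.2) (S p)
    have := hm p
    omega
  · intro l K hK hK'
    have hmem : ∀ p ∈ K, p ∈ Z ∧ l (Sum.inl p.1) = true ∧ l (Sum.inr p.2) = true ∧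
        ∀ s ∈ S p, l s = false := by
      intro p h
      have h2 := hK' _ h
      obtain ⟨h3, h4⟩ := Finset.mem_filter.1 (hK h)
      refine ⟨h3, ?_, ?_, ?_⟩
      · simpa using h2 (Sum.inl p.1) (Finset.mem_insert_self _ _)
      · simpa using h2 (Sum.inr p.2) (Finset.mem_insert_of_mem (Finset.mem_insert_self _ _))
      · intro s hs
        have h5 := h2 s (Finset.mem_insert_of_mem (Finset.mem_insert_of_mem hs))
        have h6 : s ≠ Sum.inl p.1 := fun h => hx p (h ▸ hs)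
        have h7 : s ≠ Sum.inr p.2 := fun h => h4 (h ▸ hs)
        rw [h5]
        simp [h6, h7]
    have h1 := hA (K.filter fun p => VC p) l
      (fun p hp => (hmem p (Finset.mem_filter.1 hp).1).1)
      (fun p hp => (Finset.mem_filter.1 hp).2)
      (fun p hp => (hmem p (Finset.mem_filter.1 hp).1).2)
    have h2 := hB (K.filter fun p => ¬ VC p)
      (fun p hp => (hmem p (Finset.mem_filter.1 hp).1).1)
      (fun p hp => (Finset.mem_filter.1 hp).2)
    have h3 := Finset.card_filter_add_card_filter_not (s := K) (fun p => VC p)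
    omega

section

variable {V W T : Type} {H₁ : SimpleGraph V} {H₂ : SimpleGraph W} {G : SimpleGraph T}
  {f : V → T} {g : W → T} {c : T → Bool} {n : ℕ} {Z : Finset (Fin n × Fin n)}

/-- `φ` is a one-sided copy of `H` -/
def IsCopy (H : SimpleGraph V) (c : V → Bool) (Z : Finset (Fin n × Fin n)) (φ : V → Fin n) : Prop :=
  (∀ x y, c x = c y → φ x = φ y → x = y) ∧
    ∀ x y, c x = true → c y = false → H.Adj x y → (φ x, φ y) ∈ Z

/-- two copies which meet only where they should -/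
theorem merge (hf : Function.Injective f) (hg : Function.Injective g)
    (hcov : ∀ a, (∃ x, f x = a) ∨ ∃ y, g y = a)
    (hadj : ∀ a b, G.Adj a b → (∃ x y, H₁.Adj x y ∧ f x = a ∧ f y = b) ∨
      ∃ x y, H₂.Adj x y ∧ g x = a ∧ g y = b)
    {φ : V → Fin n} {ψ : W → Fin n} (hφ : IsCopy H₁ (fun x => c (f x)) Z φ)
    (hψ : IsCopy H₂ (fun y => c (g y)) Z ψ) (h1 : ∀ x y, f x = g y → φ x = ψ y)
    (h2 : ∀ x y, side (c (f x)) (φ x) = side (c (g y)) (ψ y) → f x = g y) :
    HasCopy G c Z := by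
  classical
  have hex : ∀ a, ∃ p : Fin n, (∀ x, f x = a → p = φ x) ∧ ∀ y, g y = a → p = ψ y := by
    intro a
    by_cases h : ∃ x, f x = a
    · obtain ⟨x, rfl⟩ := h
      exact ⟨φ x, fun x' h => by rw [hf h], fun y h => h1 x y h.symm⟩
    · obtain ⟨y, rfl⟩ := (hcov a).resolve_left h
      exact ⟨ψ y, fun x' h' => absurd ⟨x', h'⟩ h, fun y' h' => by rw [hg h']⟩
  choose Φ hΦ₁ hΦ₂ using hex
  have e₁ : ∀ x, Φ (f x) = φ x := fun x => hΦ₁ _ x rfl
  have e₂ : ∀ y, Φ (g y) = ψ y := fun y => hΦ₂ _ y rfl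
  refine ⟨Φ, ?_, ?_⟩
  · intro a b hc h
    rcases hcov a with ⟨x, rfl⟩ | ⟨x, rfl⟩ <;> rcases hcov b with ⟨y, rfl⟩ | ⟨y, rfl⟩
    · rw [e₁, e₁] at h
      rw [hφ.1 x y hc h]
    · rw [e₁, e₂] at h
      exact h2 x y (by rw [hc, h])
    · rw [e₁, e₂] at h
      exact (h2 y x (by rw [hc, h])).symm
    · rw [e₂, e₂] at h
      rw [hψ.1 x y hc h]
  · intro a b ha hb hab
    rcases hadj a b hab with ⟨x, y, hxy, rfl, rfl⟩ | ⟨x, y, hxy, rfl, rfl⟩
    · rw [e₁, e₁]; exact hφ.2 x y ha hb hxy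
    · rw [e₂, e₂]; exact hψ.2 x y ha hb hxy

/-- in a set of pairs with labelled ends every vertex of a copy is labelled -/
theorem labelled {K : Finset (Fin n × Fin n)} {l : Fin n ⊕ Fin n → Bool} {c : V → Bool}
    {H : SimpleGraph V} (hc : ∀ x y, H.Adj x y → c x ≠ c y) (hnb : ∀ x, ∃ z, H.Adj x z)
    (hl : ∀ p ∈ K, l (Sum.inl p.1) = true ∧ l (Sum.inr p.2) = true) {φ : V → Fin n}
    (hφ : IsCopy H c K φ) (x : V) : l (side (c x) (φ x)) = true := by
  obtain ⟨z, hz⟩ := hnb x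
  have hne := hc x z hz
  rcases hx : c x with _ | _ <;> rcases hz' : c z with _ | _
  · rw [hx, hz'] at hne; exact absurd rfl hne
  · exact (hl _ (hφ.2 z x hz' hx hz.symm)).2
  · exact (hl _ (hφ.2 x z hx hz' hz)).1
  · rw [hx, hz'] at hne; exact absurd rfl hne

theorem side_inl {b : Bool} {x y : Fin n} (h : side b x = Sum.inl y) : b = true ∧ x = y := by
  cases b
  · simp [side] at h
  · exact ⟨rfl, Sum.inl_injective h⟩

theorem side_inr {b : Bool} {x y : Fin n} (h : side b x = Sum.inr y) : b = false ∧ x = y := by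
  cases b
  · exact ⟨rfl, Sum.inr_injective h⟩
  · simp [side] at h

/-- **Graphs which meet in a vertex.** -/
theorem union_vertex [Fintype W] (hf : Function.Injective f) (hg : Function.Injective g)
    (hcov : ∀ a, (∃ x, f x = a) ∨ ∃ y, g y = a)
    (hadj : ∀ a b, G.Adj a b → (∃ x y, H₁.Adj x y ∧ f x = a ∧ f y = b) ∨
      ∃ x y, H₂.Adj x y ∧ g x = a ∧ g y = b)
    (hc₁ : ∀ x y, H₁.Adj x y → c (f x) ≠ c (f y)) (hc₂ : ∀ x y, H₂.Adj x y → c (g x) ≠ c (g y))
    (hnb₁ : ∀ x, ∃ z, H₁.Adj x z) (hnb₂ : ∀ x, ∃ z, H₂.Adj x z)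
    {u : V} {v : W} (hroot : ∀ x y, f x = g y ↔ x = u ∧ y = v) (hu : c (f u) = true)
    (hZ : ¬ HasCopy G c Z) :
    Z.card ≤ n * Fintype.card W + 2 ^ (Fintype.card W + 2) *
      (zar H₁ (fun x => c (f x)) n + zar H₂ (fun y => c (g y)) n) := by
  classical
  have huv : f u = g v := (hroot u v).2 ⟨rfl, rfl⟩
  have hv : c (g v) = true := by rw [← huv]; exact hu
  let VC : Fin n → Prop := fun x => ∃ ψ : W → Fin n, IsCopy H₂ (fun y => c (g y)) Z ψ ∧ ψ v = x
  have hS : ∀ x : Fin n, ∃ S : Finset (Fin n ⊕ Fin n), Sum.inl x ∉ S ∧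
      S.card ≤ Fintype.card W ∧ (VC x → ∃ ψ : W → Fin n, IsCopy H₂ (fun y => c (g y)) Z ψ ∧
        ψ v = x ∧ ∀ y, y ≠ v → side (c (g y)) (ψ y) ∈ S) := by
    intro x
    by_cases hx : VC x
    · obtain ⟨ψ, hψ, hψv⟩ := hx
      refine ⟨(Finset.univ.image fun y => side (c (g y)) (ψ y)).erase (Sum.inl x),
        Finset.notMem_erase _ _,
        (Finset.card_erase_le.trans Finset.card_image_le).trans (by rw [Finset.card_univ]),
        fun _ => ⟨ψ, hψ, hψv, fun y hy => Finset.mem_erase.2 ⟨fun h => ?_,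
          Finset.mem_image_of_mem (fun y => side (c (g y)) (ψ y)) (Finset.mem_univ y)⟩⟩⟩
      obtain ⟨h1, h2⟩ := side_inl h
      exact hy (hψ.1 y v (h1.trans hv.symm) (h2.trans hψv.symm))
    · exact ⟨∅, Finset.notMem_empty _, Nat.zero_le _, fun h => absurd h hx⟩
  choose S hxS hSc hS using hS
  refine label_lemma (fun p => VC p.1) (fun p => S p.1) (fun p => hSc p.1) (fun p => hxS p.1)
    ?_ ?_ ?_
  · intro D _ hD
    have h1 : D ⊆ (Finset.univ.sigma fun x : Fin n =>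
        Finset.univ.filter fun y : Fin n => Sum.inr y ∈ S x).map
        (Equiv.sigmaEquivProd (Fin n) (Fin n)).toEmbedding := by
      rintro ⟨x, y⟩ h
      rw [Finset.mem_map]
      refine ⟨⟨x, y⟩, ?_, rfl⟩
      rw [Finset.mem_sigma]
      exact ⟨Finset.mem_univ _, Finset.mem_filter.2 ⟨Finset.mem_univ _, hD _ h⟩⟩
    refine (Finset.card_le_card h1).trans ?_
    rw [Finset.card_map, Finset.card_sigma]
    refine (Finset.sum_le_card_nsmul _ _ (Fintype.card W) fun x _ => ?_).trans (by simp)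
    refine le_trans ?_ (hSc x)
    refine Finset.card_le_card_of_injOn (fun y => Sum.inr y) ?_ ?_
    · intro y hy
      have := (Finset.mem_filter.1 hy).2
      exact this
    · intro y _ y' _ h
      exact Sum.inr_injective h
  · intro K l hK hVC hl
    refine le_zar ?_
    rintro ⟨φ, hφ⟩
    have hφ : IsCopy H₁ (fun x => c (f x)) K φ := hφ
    obtain ⟨z, hz⟩ := hnb₁ u
    have hcz : c (f z) = false := by
      have := hc₁ u z hz; rw [hu] at this; simpa using this.symm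
    have hp := hφ.2 u z hu hcz hz
    obtain ⟨ψ, hψ, hψv, hψS⟩ := hS (φ u) (hVC _ hp)
    have hll := (hl _ hp).2.2
    apply hZ
    refine merge hf hg hcov hadj (φ := φ) (ψ := ψ)
      ⟨hφ.1, fun x y hx hy h => hK (hφ.2 x y hx hy h)⟩ hψ ?_ ?_
    · intro x y h
      obtain ⟨rfl, rfl⟩ := (hroot x y).1 h
      exact hψv.symm
    · intro x y h
      have h3 := labelled hc₁ hnb₁ (fun p hp => ⟨(hl p hp).1, (hl p hp).2.1⟩) hφ x
      by_cases hy : y = v
      · subst hy
        obtain ⟨h4, h5⟩ := side_injective h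
        have h6 : x = u := hφ.1 x u (h4.trans (by rw [← huv])) (h5.trans hψv)
        exact (hroot x y).2 ⟨h6, rfl⟩
      · have h4 := hll _ (hψS y hy)
        rw [← h, h3] at h4
        exact absurd h4 (by decide)
  · intro K hK hVC
    refine le_zar ?_
    rintro ⟨ψ, hψ⟩
    obtain ⟨z, hz⟩ := hnb₂ v
    have hcz : c (g z) = false := by
      have := hc₂ v z hz; rw [hv] at this; simpa using this.symm
    exact hVC _ (hψ.2 v z hv hcz hz) ⟨ψ, ⟨hψ.1, fun x y hx hy h => hK (hψ.2 x y hx hy h)⟩, rfl⟩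

/-- **Graphs which meet in an edge.** -/
theorem union_edge [Fintype W] (hf : Function.Injective f) (hg : Function.Injective g)
    (hcov : ∀ a, (∃ x, f x = a) ∨ ∃ y, g y = a)
    (hadj : ∀ a b, G.Adj a b → (∃ x y, H₁.Adj x y ∧ f x = a ∧ f y = b) ∨
      ∃ x y, H₂.Adj x y ∧ g x = a ∧ g y = b)
    (hc₁ : ∀ x y, H₁.Adj x y → c (f x) ≠ c (f y))
    (hnb₁ : ∀ x, ∃ z, H₁.Adj x z)
    {u u' : V} {v v' : W} (hU : H₁.Adj u u') (hV : H₂.Adj v v')
    (hroot : ∀ x y, f x = g y ↔ (x = u ∧ y = v) ∨ (x = u' ∧ y = v')) (hu : c (f u) = true)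
    (hZ : ¬ HasCopy G c Z) :
    Z.card ≤ n * Fintype.card W + 2 ^ (Fintype.card W + 2) *
      (zar H₁ (fun x => c (f x)) n + zar H₂ (fun y => c (g y)) n) := by
  classical
  have huv : f u = g v := (hroot u v).2 (Or.inl ⟨rfl, rfl⟩)
  have huv' : f u' = g v' := (hroot u' v').2 (Or.inr ⟨rfl, rfl⟩)
  have hv : c (g v) = true := by rw [← huv]; exact hu
  have hu' : c (f u') = false := by
    have := hc₁ u u' hU; rw [hu] at this; simpa using this.symm
  have hv' : c (g v') = false := by rw [← huv']; exact hu'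
  let VC : Fin n × Fin n → Prop := fun p =>
    ∃ ψ : W → Fin n, IsCopy H₂ (fun y => c (g y)) Z ψ ∧ ψ v = p.1 ∧ ψ v' = p.2
  have hS : ∀ p : Fin n × Fin n, ∃ S : Finset (Fin n ⊕ Fin n), Sum.inl p.1 ∉ S ∧
      Sum.inr p.2 ∉ S ∧
      S.card ≤ Fintype.card W ∧ (VC p → ∃ ψ : W → Fin n, IsCopy H₂ (fun y => c (g y)) Z ψ ∧
        ψ v = p.1 ∧ ψ v' = p.2 ∧ ∀ y, y ≠ v → y ≠ v' → side (c (g y)) (ψ y) ∈ S) := by
    intro p
    by_cases hx : VC p
    · obtain ⟨ψ, hψ, hψv, hψv'⟩ := hx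
      refine ⟨((Finset.univ.image fun y => side (c (g y)) (ψ y)).erase (Sum.inl p.1)).erase
        (Sum.inr p.2), fun h => Finset.notMem_erase _ _ (Finset.mem_of_mem_erase h),
        Finset.notMem_erase _ _,
        (Finset.card_erase_le.trans (Finset.card_erase_le.trans Finset.card_image_le)).trans
          (by rw [Finset.card_univ]),
        fun _ => ⟨ψ, hψ, hψv, hψv', fun y hy hy' => Finset.mem_erase.2 ⟨fun h => ?_,
          Finset.mem_erase.2 ⟨fun h => ?_, Finset.mem_image_of_mem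
            (fun y => side (c (g y)) (ψ y)) (Finset.mem_univ y)⟩⟩⟩⟩
      · obtain ⟨h1, h2⟩ := side_inr h
        exact hy' (hψ.1 y v' (h1.trans hv'.symm) (h2.trans hψv'.symm))
      · obtain ⟨h1, h2⟩ := side_inl h
        exact hy (hψ.1 y v (h1.trans hv.symm) (h2.trans hψv.symm))
    · exact ⟨∅, Finset.notMem_empty _, Finset.notMem_empty _, Nat.zero_le _,
        fun h => absurd h hx⟩
  choose S hxS hyS hSc hS using hS
  refine label_lemma VC S hSc hxS ?_ ?_ ?_
  · intro D _ hD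
    have : D = ∅ := Finset.eq_empty_of_forall_notMem fun p hp => hyS p (hD p hp)
    rw [this, Finset.card_empty]
    exact Nat.zero_le _
  · intro K l hK hVC hl
    refine le_zar ?_
    rintro ⟨φ, hφ⟩
    have hφ : IsCopy H₁ (fun x => c (f x)) K φ := hφ
    have hp := hφ.2 u u' hu hu' hU
    obtain ⟨ψ, hψ, hψv, hψv', hψS⟩ := hS _ (hVC _ hp)
    have hll := (hl _ hp).2.2
    apply hZ
    refine merge hf hg hcov hadj (φ := φ) (ψ := ψ)
      ⟨hφ.1, fun x y hx hy h => hK (hφ.2 x y hx hy h)⟩ hψ ?_ ?_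
    · intro x y h
      rcases (hroot x y).1 h with ⟨rfl, rfl⟩ | ⟨rfl, rfl⟩
      · exact hψv.symm
      · exact hψv'.symm
    · intro x y h
      have h3 := labelled hc₁ hnb₁ (fun p hp => ⟨(hl p hp).1, (hl p hp).2.1⟩) hφ x
      by_cases hy : y = v
      · subst hy
        obtain ⟨h4, h5⟩ := side_injective h
        have h6 : x = u := hφ.1 x u (h4.trans (by rw [← huv])) (h5.trans hψv)
        exact (hroot x y).2 (Or.inl ⟨h6, rfl⟩)
      · by_cases hy' : y = v'
        · subst hy'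
          obtain ⟨h4, h5⟩ := side_injective h
          have h6 : x = u' := hφ.1 x u' (h4.trans (by rw [← huv'])) (h5.trans hψv')
          exact (hroot x y).2 (Or.inr ⟨h6, rfl⟩)
        · have h4 := hll _ (hψS y hy hy')
          rw [← h, h3] at h4
          exact absurd h4 (by decide)
  · intro K hK hVC
    refine le_zar ?_
    rintro ⟨ψ, hψ⟩
    exact hVC _ (hψ.2 v v' hv hv' hV)
      ⟨ψ, ⟨hψ.1, fun x y hx hy h => hK (hψ.2 x y hx hy h)⟩, rfl, rfl⟩

end

end Pool.Glue28
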